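import Pool.Agent.Lib.H53Toric.Defs

/-!
# Definitions: the endomorphism algebra over `K`, self adjoint primitive idempotents,
similitudes commuting with endomorphisms
-/

set_option autoImplicit false

namespace Pool.Agent.H76RM

open Matrix

variable {ι : Type*} [Fintype ι] [DecidableEq ι]

/-- The `K`-span of the algebra `D` of matrices over `ℚ`. -/
noncomputable def spanK (K : Type*) [Field K] [Algebra ℚ K] (D : Subalgebra ℚ (Matrix ι ι ℚ)) :
    Submodule K (Matrix ι ι K) :=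
  Submodule.span K {x | ∃ d ∈ D, x = d.map (algebraMap ℚ K)}

/-- `e 0, e 1, ...` are self adjoint primitive idempotents of `D ⊗ K`, one in each simple factor
of `D ⊗ K`; self adjoint means `ψ(e x, y) = ψ(x, e y)`. -/
structure IsSplitting {K : Type*} [Field K] [Algebra ℚ K] (D : Subalgebra ℚ (Matrix ι ι ℚ))
    (ψ : Matrix ι ι ℚ) {m : ℕ} (e : Fin m → Matrix ι ι K) : Prop where
  mem : ∀ b, e b ∈ spanK K D
  idem : ∀ b, e b * e b = e b
  adj : ∀ b, (e b)ᵀ * ψ.map (algebraMap ℚ K) = ψ.map (algebraMap ℚ K) * e b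
  corner : ∀ b, ∀ x ∈ spanK K D, ∃ c : K, e b * x * e b = c • e b
  orth : ∀ b c, b ≠ c → ∀ x ∈ spanK K D, e b * x * e c = 0
  full : ∀ v : ι → K, v ∈ Submodule.span K {w | ∃ x ∈ spanK K D, ∃ b, ∃ u : ι → K,
    w = x *ᵥ (e b *ᵥ u)}

/-- The `K`-points of the group of those symplectic similitudes of `ψ` that commute with `D`. -/
def similD (K : Type*) [Field K] [Algebra ℚ K] (ψ : Matrix ι ι ℚ)
    (D : Subalgebra ℚ (Matrix ι ι ℚ)) : Set (Matrix ι ι K) :=
  {x | x.det ≠ 0 ∧ (∀ d ∈ D, x * d.map (algebraMap ℚ K) = d.map (algebraMap ℚ K) * x) ∧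
    ∃ c : K, xᵀ * ψ.map (algebraMap ℚ K) * x = c • ψ.map (algebraMap ℚ K)}

end Pool.Agent.H76RM
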