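import Pool.Agent.Lib.H76RM.Grp
import Pool.Agent.Lib.H53Toric.Indep2

/-!
# The setup given by a representation
-/

set_option autoImplicit false
set_option linter.unusedSectionVars false
namespace Pool.Agent.H76RM
open Module Matrix Pool.Agent.H53Toric

variable {ι : Type*} [Fintype ι] [DecidableEq ι] {K : Type*} [Field K]
variable {B : Type*} [Fintype B] [DecidableEq B]

theorem skew_om {J : Matrix ι ι K} (hdet : IsUnit J.det) {A : Module.End K (ι → K)}
    (hA : adjE J A = -A) (v w : ι → K) : om J (A v) w = - om J v (A w) := by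
  obtain ⟨X, rfl⟩ := (phi (ι := ι) (K := K)).surjective A
  rw [skew_iff hdet] at hA
  rw [phi_apply, phi_apply, om_apply, om_apply]
  have h1 : (X *ᵥ v) ⬝ᵥ (J *ᵥ w) = v ⬝ᵥ ((Xᵀ * J) *ᵥ w) := by
    rw [← Matrix.mulVec_mulVec, Matrix.dotProduct_mulVec v, Matrix.vecMul_transpose]
  rw [h1, eq_neg_of_add_eq_zero_left hA, Matrix.neg_mulVec, ← Matrix.mulVec_mulVec,
    dotProduct_neg]

/-- representation as operators -/
noncomputable def opr {Γ : Type*} [Group Γ] (R : Γ →* Matrix ι ι K) :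
    Γ →* Module.End K (ι → K) where
  toFun x := phi (R x)
  map_one' := by rw [map_one, map_one]
  map_mul' := by
    intro x y
    rw [map_mul, map_mul]

theorem opr_apply {Γ : Type*} [Group Γ] (R : Γ →* Matrix ι ι K) (x : Γ) (v : ι → K) :
    opr R x v = R x *ᵥ v := phi_apply _ _

theorem R_inv {Γ : Type*} [Group Γ] (R : Γ →* Matrix ι ι K) (x : Γ) : R x * R x⁻¹ = 1 := by
  rw [← map_mul, mul_inv_cancel, map_one]

theorem R_inv' {Γ : Type*} [Group Γ] (R : Γ →* Matrix ι ι K) (x : Γ) : R x⁻¹ * R x = 1 := by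
  rw [← map_mul, inv_mul_cancel, map_one]

theorem exists_falt [CharZero K] {J : Matrix ι ι K} {DD : Submodule K (Matrix ι ι K)} {e : B → Matrix ι ι K}
    (h : Split J DD e) (hJ : Jᵀ = -J) (hdet : IsUnit J.det) {Γ : Type*} [Group Γ]
    (R : Γ →* Matrix ι ι K)
    (semis : ∀ W : Submodule K (ι → K), (∀ x, ∀ w ∈ W, R x *ᵥ w ∈ W) →
      ∃ W' : Submodule K (ι → K), (∀ x, ∀ w ∈ W', R x *ᵥ w ∈ W') ∧ IsCompl W W')
    (commt : ∀ y : Matrix ι ι K, (∀ x, y * R x = R x * y) → y ∈ DD)
    (u v : ι → K) (hu : (∑ b, phi (e b)) u = u) (hv : (∑ b, phi (e b)) v = v)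
    (huv : ∀ x, om J u (opr R x v) = 0) (b : B) : phi (e b) v = 0 ∨ phi (e b) u = 0 := by
  set W : Submodule K (ι → K) := Submodule.span K (Set.range fun x => R x *ᵥ v) with hW
  have hst : ∀ x, ∀ w ∈ W, R x *ᵥ w ∈ W := by
    intro x w hw
    refine Submodule.span_induction (p := fun w _ => R x *ᵥ w ∈ W) ?_ ?_ ?_ ?_ hw
    · rintro _ ⟨y, rfl⟩
      apply Submodule.subset_span
      exact ⟨x * y, by
        change R (x * y) *ᵥ v = R x *ᵥ (R y *ᵥ v)
        rw [map_mul, Matrix.mulVec_mulVec]⟩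
    · rw [Matrix.mulVec_zero]; exact W.zero_mem
    · intro a c _ _ ha hc
      rw [Matrix.mulVec_add]; exact W.add_mem ha hc
    · intro a w _ hw
      rw [Matrix.mulVec_smul]; exact W.smul_mem _ hw
  obtain ⟨W', hst', hcompl⟩ := semis W hst
  set π : Module.End K (ι → K) := W.subtype ∘ₗ W.projectionOnto W' hcompl with hπ
  have hπW : ∀ w ∈ W, π w = w := by
    intro w hw
    change ((W.projectionOnto W' hcompl w : W) : ι → K) = w
    rw [Submodule.projectionOnto_apply_left hcompl ⟨w, hw⟩]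
  have hπW' : ∀ w ∈ W', π w = 0 := by
    intro w hw
    change ((W.projectionOnto W' hcompl w : W) : ι → K) = 0
    rw [(Submodule.projectionOnto_apply_eq_zero_iff hcompl).2 hw]; rfl
  have hπm : ∀ w, π w ∈ W := fun w => (W.projectionOnto W' hcompl w).2
  obtain ⟨p, hp⟩ := (phi (ι := ι) (K := K)).surjective π
  have hpD : p ∈ DD := by
    apply commt
    intro x
    apply (phi (ι := ι) (K := K)).injective
    rw [map_mul, map_mul, hp]
    apply LinearMap.ext
    intro w
    obtain ⟨w1, hw1, w2, hw2, rfl⟩ := Submodule.mem_sup.1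
      (show w ∈ W ⊔ W' by rw [hcompl.sup_eq_top]; trivial)
    change π (phi (R x) (w1 + w2)) = phi (R x) (π (w1 + w2))
    rw [map_add, map_add, map_add, hπW w1 hw1, hπW' w2 hw2, add_zero, phi_apply, phi_apply,
      hπW _ (hst x w1 hw1), hπW' _ (hst' x w2 hw2), add_zero]
  have hvW : v ∈ W := by
    apply Submodule.subset_span
    exact ⟨1, by
      change R 1 *ᵥ v = v
      rw [map_one, Matrix.one_mulVec]⟩
  have huW : ∀ w ∈ W, om J u w = 0 := by
    intro w hw
    refine Submodule.span_induction (p := fun w _ => om J u w = 0) ?_ ?_ ?_ ?_ hw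
    · rintro _ ⟨y, rfl⟩
      have := huv y
      rwa [opr_apply] at this
    · rw [map_zero]
    · intro a c _ _ ha hc
      rw [map_add, ha, hc, add_zero]
    · intro a w _ hw
      rw [map_smul, hw, smul_zero]
  obtain ⟨c, hc⟩ := h.corner b p hpD
  have hcor : ∀ w, phi (e b) (π (phi (e b) w)) = c • phi (e b) w := by
    intro w
    have := congrArg (fun m => phi m w) hc
    simp only [map_mul, map_smul, hp] at this
    exact this
  have horth : ∀ b' c', b' ≠ c' → ∀ w, phi (e b') (π (phi (e c') w)) = 0 := by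
    intro b' c' hbc w
    have := congrArg (fun m => phi m w) (h.orth b' c' hbc p hpD)
    simp only [map_mul, map_zero, hp] at this
    exact this
  by_cases hv0 : phi (e b) v = 0
  · exact Or.inl hv0
  right
  -- `c = 1`
  have hc1 : c = 1 := by
    have h1 : phi (e b) (π v) = c • phi (e b) v := by
      conv_lhs => rw [← hv]
      rw [LinearMap.sum_apply, map_sum, map_sum, Finset.sum_eq_single b]
      · exact hcor v
      · intro b' _ hb'
        exact horth b b' (Ne.symm hb') v
      · intro hb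
        exact absurd (Finset.mem_univ b) hb
    rw [hπW v hvW] at h1
    have h2 : (c - 1) • phi (e b) v = 0 := by
      rw [sub_smul, one_smul, ← h1, sub_self]
    rcases smul_eq_zero.1 h2 with h3 | h3
    · exact sub_eq_zero.1 h3
    · exact absurd h3 hv0
  have hself : ∀ b' v w, om J (phi (e b') v) w = om J v (phi (e b') w) := by
    intro b' v w
    rw [phi_apply, phi_apply]
    exact h.self b' v w
  apply om_nd hdet
  intro w
  have hanti : ∀ v w, om J v w = - om J w v := omega_antisymm (om_alt hJ)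
  rw [hanti, hself]
  rw [neg_eq_zero]
  have h1 := huW _ (hπm (phi (e b) w))
  rw [← hu, LinearMap.sum_apply, map_sum, LinearMap.sum_apply] at h1
  rw [Finset.sum_eq_single b] at h1
  · rw [hself, hcor, hc1, one_smul] at h1
    exact h1
  · intro b' _ hb'
    rw [hself, horth b' b hb' w, map_zero]
  · intro hb
    exact absurd (Finset.mem_univ b) hb

/-- The setup. -/
theorem mk_setup [CharZero K] {J : Matrix ι ι K} {DD : Submodule K (Matrix ι ι K)}
    {e : B → Matrix ι ι K}
    (h : Split J DD e) (hJ : Jᵀ = -J) (hdet : IsUnit J.det) (hne : J ≠ 0) {Γ : Type*} [Group Γ]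
    (R : Γ →* Matrix ι ι K)
    (sim : ∀ x, ∃ c : K, (R x)ᵀ * J * R x = c • J)
    (lin : ∀ x, ∀ d ∈ DD, R x * d = d * R x)
    (prime : (van (Set.range R)).IsPrime)
    (semis : ∀ W : Submodule K (ι → K), (∀ x, ∀ w ∈ W, R x *ᵥ w ∈ W) →
      ∃ W' : Submodule K (ι → K), (∀ x, ∀ w ∈ W', R x *ᵥ w ∈ W') ∧ IsCompl W W')
    (commt : ∀ y : Matrix ι ι K, (∀ x, y * R x = R x * y) → y ∈ DD) :
    Setup (om J) (fun b => phi (e b)) (lieE J (Set.range R)) (opr R) where
  alt := om_alt hJ
  lie := fun A hA C hC => lieE_lie hdet _ A hA C hC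
  skew := by
    intro A hA
    exact skew_om hdet (mem_skewE.1 hA.2)
  sim := by
    intro x
    obtain ⟨c, hc⟩ := sim x
    refine ⟨c, ?_, ?_⟩
    · rintro rfl
      rw [zero_smul] at hc
      apply hne
      have hss' : (R x⁻¹)ᵀ * (R x)ᵀ = 1 := by
        rw [← Matrix.transpose_mul, R_inv, Matrix.transpose_one]
      calc J = ((R x⁻¹)ᵀ * (R x)ᵀ) * J * (R x * R x⁻¹) := by
            rw [hss', R_inv, one_mul, mul_one]
        _ = (R x⁻¹)ᵀ * ((R x)ᵀ * J * R x) * R x⁻¹ := by noncomm_ring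
        _ = 0 := by rw [hc]; simp
    · intro v w
      rw [opr_apply, opr_apply, om_mul, hc, om_apply, om_apply, Matrix.smul_mulVec,
        dotProduct_smul, smul_eq_mul]
  conj := by
    intro x A hA
    obtain ⟨c, hc⟩ := sim x
    refine lieE_conj hdet ?_ (Set.mem_range_self x) (Set.mem_range_self x⁻¹) (R_inv R x) hc hA
    rintro _ ⟨y, rfl⟩ _ ⟨z, rfl⟩
    exact ⟨y * z, map_mul _ _ _⟩
  idem := by
    intro b
    rw [← map_mul, h.idem]
  orth := by
    intro b c hbc
    rw [← map_mul, h.orth1 hbc, map_zero]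
  nd := by
    intro u hu
    apply om_nd hdet
    intro w
    rw [omega_antisymm (om_alt hJ), hu, neg_zero]
  self := by
    intro b v w
    rw [phi_apply, phi_apply]
    exact h.self b v w
  gcomm := by
    intro b A hA
    obtain ⟨X, rfl⟩ := (phi (ι := ι) (K := K)).surjective A
    have h1 := (mem_lieE.1 hA).1
    have h2 : X * e b = e b * X := zlie_commute (S := Set.range R) ⟨1, map_one R⟩ (by
      rintro _ ⟨y, rfl⟩
      exact lin y _ (h.mem b)) h1
    rw [← map_mul, ← map_mul, h2]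
  rcomm := by
    intro b x
    change phi (e b) * phi (R x) = phi (R x) * phi (e b)
    rw [← map_mul, ← map_mul, lin x _ (h.mem b)]
  gen := by
    intro u₁ v₁ u₂ v₂ u₃ v₃ h1 h2 h3
    have hc : ∀ u v : ι → K, (∃ x, om J u (opr R x v) ≠ 0) →
        ∃ s ∈ Set.range R, om J u (s *ᵥ v) ≠ 0 := by
      rintro u v ⟨x, hx⟩
      exact ⟨_, ⟨x, rfl⟩, hx⟩
    obtain ⟨_, ⟨x, rfl⟩, h4⟩ := gen_of_prime prime (hc _ _ h1) (hc _ _ h2) (hc _ _ h3)
    exact ⟨x, h4⟩
  falt := exists_falt h hJ hdet R semis commt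

end Pool.Agent.H76RM
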