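import Pool.Agent.Lib.H76RM.Core3

/-!
# Independence of the components
-/

set_option autoImplicit false
set_option linter.unusedSectionVars false
namespace Pool.Agent.H76RM
open Module Pool.Agent.H53Toric

variable {K : Type*} [Field K] [IsAlgClosed K] [CharZero K] {V : Type*} [AddCommGroup V]
  [Module K V] [FiniteDimensional K V]
variable {B : Type*} [Fintype B] [DecidableEq B] {Γ : Type*} [Group Γ]
variable {ω : V →ₗ[K] V →ₗ[K] K} {e : B → Module.End K V}
    {g : Submodule K (Module.End K V)} {r : Γ →* Module.End K V}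

/-- all transvections of `V_b` with trivial component at `c` -/
def Pbc (ω : V →ₗ[K] V →ₗ[K] K) (e : B → Module.End K V)
    (g : Submodule K (Module.End K V)) (b c : B) : Prop :=
  ∀ w, e b w = w → ∃ A ∈ g, A * e b = trv ω w ∧ A * e c = 0

namespace Setup

variable (h : Setup ω e g r)
include h

theorem comm_kill {A C : Module.End K V} (hA : A ∈ g) (hC : C ∈ g) {c : B} (h0 : C * e c = 0) :
    (A * C - C * A) * e c = 0 := by
  rw [h.mul_e' hA hC, h0, mul_zero, zero_mul, sub_zero]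

theorem dbl_kill {A C : Module.End K V} (hA : A ∈ g) (hC : C ∈ g) {c : B} (h0 : C * e c = 0) :
    (A * (A * C - C * A) - (A * C - C * A) * A) * e c = 0 :=
  h.comm_kill hA (h.lie A hA C hC) (h.comm_kill hA hC h0)

theorem dbl_kill' {A C : Module.End K V} (hA : A ∈ g) (hC : C ∈ g) {c : B} (h0 : A * e c = 0) :
    (A * (A * C - C * A) - (A * C - C * A) * A) * e c = 0 := by
  rw [h.mul_e' hA (h.lie A hA C hC), h0, mul_zero, zero_mul, sub_zero]

/-- one step: from `B` inducing `A0` on `V_b`, zero on `V_c` and `A_w` inducing `trv w` -/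
theorem step {b c : B} (hfull : ∀ w, e b w = w → w ∈ D ω e g b) {A0 : Module.End K V}
    (hA0 : A0 ∈ g) (hc : A0 * e c = 0) {w : V} (hw : e b w = w) (hne : ω (A0 w) w ≠ 0) :
    ∃ A ∈ g, A * e b = trv ω w ∧ A * e c = 0 := by
  obtain ⟨-, C, hC, hCw⟩ := hfull w hw
  refine ⟨(-(1 / (2 * ω (A0 w) w))) • (C * (C * A0 - A0 * C) - (C * A0 - A0 * C) * C),
    g.smul_mem _ (h.dbl hC hA0), ?_, ?_⟩
  · rw [smul_mul_assoc, h.dbl_e hC hA0 b (by rw [hCw, trv_sq h.alt]), hCw, trv_mid, smul_smul,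
      smul_smul]
    have e1 : (A0 * e b) w = A0 w := by change A0 (e b w) = _; rw [hw]
    rw [e1]
    have e2 : -(1 / (2 * ω (A0 w) w)) * -2 * ω (A0 w) w = 1 := by field_simp
    rw [e2, one_smul]
  · rw [smul_mul_assoc, h.dbl_kill hC hA0 hc, smul_zero]

theorem pbc_of {b c : B} (hfull : ∀ w, e b w = w → w ∈ D ω e g b) {A0 : Module.End K V}
    (hA0 : A0 ∈ g) (hc : A0 * e c = 0) (hb : A0 * e b ≠ 0) : Pbc ω e g b c := by
  -- a vector with `ω(A0 u, u) ≠ 0`
  obtain ⟨u, hu, hne⟩ : ∃ u, e b u = u ∧ ω (A0 u) u ≠ 0 := by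
    by_contra hcon
    push Not at hcon
    apply hb
    ext v
    apply h.nd
    intro w
    change ω (A0 (e b v)) w = 0
    have e1 : A0 (e b v) = e b (A0 (e b v)) := by rw [h.ecomm hA0, h.idem']
    rw [e1, h.self]
    set v1 := e b v
    set w1 := e b w
    have hv1 : e b v1 = v1 := h.idem' b v
    have hw1 : e b w1 = w1 := h.idem' b w
    have h1 := hcon (v1 + w1) (by rw [map_add, hv1, hw1])
    simp only [map_add, LinearMap.add_apply, hcon v1 hv1, hcon w1 hw1, zero_add, add_zero] at h1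
    have h2 : ω (A0 w1) v1 = ω (A0 v1) w1 := by rw [h.skew A0 hA0, h.anti w1, neg_neg]
    rw [h2] at h1
    have h3 : (2 : K) * ω (A0 v1) w1 = 0 := by linear_combination h1
    exact (mul_eq_zero.1 h3).resolve_left two_ne_zero
  have hu0 : u ≠ 0 := by
    rintro rfl
    apply hne; simp
  have next : ∀ (u w : V), e b u = u → e b w = w → ω u w ≠ 0 →
      (∃ A ∈ g, A * e b = trv ω u ∧ A * e c = 0) → ∃ A ∈ g, A * e b = trv ω w ∧ A * e c = 0 := by
    rintro u w hu hw huw ⟨A, hA, hAb, hAc⟩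
    apply h.step hfull hA hAc hw
    have e1 : A w = ω w u • u := by
      have : (A * e b) w = trv ω u w := by rw [hAb]
      rw [trv_apply] at this
      rw [← this]
      change _ = A (e b w)
      rw [hw]
    rw [e1, map_smul, LinearMap.smul_apply, smul_eq_mul, h.anti w u]
    exact mul_ne_zero (neg_ne_zero.2 huw) huw
  intro w hw
  by_cases hw0 : w = 0
  · refine ⟨0, g.zero_mem, ?_, by rw [zero_mul]⟩
    rw [hw0, zero_mul]
    ext v
    rw [trv_apply, smul_zero]; rfl
  obtain ⟨x, hx1, hx2, -⟩ := h.gen u u w u u u (h.ex hu hu hu0 hu0) (h.ex hw hu hw0 hu0)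
    (h.ex hu hu hu0 hu0)
  have hz := h.fixr x hu
  apply next (r x u) w hz hw (by rw [h.anti]; exact neg_ne_zero.2 hx2)
  apply next u (r x u) hu hz hx1
  exact h.step hfull hA0 hc hu hne

/-- clearing the component at `c` -/
theorem clear {b c : B} (hP : Pbc ω e g c b) (n : ℕ) : ∀ A ∈ g,
    finrank K (LinearMap.range (A * e c)) ≤ n → ∃ A' ∈ g, A' * e b = A * e b ∧ A' * e c = 0 := by
  induction n with
  | zero =>
    intro A hA hn
    exact ⟨A, hA, rfl, zero_of_rank (by omega)⟩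
  | succ n ih =>
    intro A hA hn
    by_cases h0 : A * e c = 0
    · exact ⟨A, hA, rfl, h0⟩
    obtain ⟨x, T', e1, ⟨y, hy⟩, -, hr⟩ := peel h.alt (h.nd) (h.skew_e hA c) h0
    have hx : e c x = x := h.range_e hA ⟨y, hy⟩
    obtain ⟨C, hC, hCc, hCb⟩ := hP x hx
    have e2 : (A - C) * e c = T' := by rw [sub_mul, hCc, e1]; abel
    have e3 : (A - C) * e b = A * e b := by rw [sub_mul, hCb, sub_zero]
    obtain ⟨A', hA', h1, h2⟩ := ih (A - C) (g.sub_mem hA hC) (by rw [e2]; omega)
    exact ⟨A', hA', by rw [h1, e3], h2⟩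

theorem indep {b c : B} (hbc : b ≠ c) (hb : Seed ω e g b) (hc : Seed ω e g c)
    (fb : ∀ w, e b w = w → w ∈ D ω e g b) (fc : ∀ w, e c w = w → w ∈ D ω e g c) :
    ∃ A ∈ g, A * e c = 0 ∧ A * e b ≠ 0 := by
  obtain ⟨M, hM, hM2, d, hd, hd0, hMd⟩ := hc
  obtain ⟨M', hM', -, d', hd', hd0', hMd'⟩ := hb
  have htn : ∀ {u : V}, u ≠ 0 → trv ω u ≠ 0 := fun hu => trv_ne (h.nd) h.alt hu
  by_cases hMb : M * e b = 0
  · -- `M` kills `b`
    have hP : Pbc ω e g c b := h.pbc_of fc hM hMb (by rw [hMd]; exact htn hd0)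
    obtain ⟨A', hA', h1, h2⟩ := h.clear hP _ M' hM' le_rfl
    exact ⟨A', hA', h2, by rw [h1, hMd']; exact htn hd0'⟩
  by_cases hall : ∀ Z ∈ g, M * Z * M * e b = ω (Z d) d • (M * e b)
  swap
  · push Not at hall
    obtain ⟨Z, hZ, hne⟩ := hall
    refine ⟨M * Z * M - ω (Z d) d • M, g.sub_mem (h.mid hM hM2 hZ) (g.smul_mem _ hM), ?_, ?_⟩
    · rw [sub_mul, smul_mul_assoc, hMd]
      ext v
      change (M * Z * M * e c) v - ω (Z d) d • trv ω d v = 0
      rw [h.mid_e hM hZ, hMd]
      simp only [trv_apply, map_smul, LinearMap.smul_apply, smul_eq_mul]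
      module
    · rw [sub_mul, smul_mul_assoc]
      exact sub_ne_zero.2 hne
  exfalso
  -- `M` is of rank one on `V_b`
  obtain ⟨v, hv⟩ : ∃ v, (M * e b) v ≠ 0 := by
    by_contra hcon
    push Not at hcon
    exact hMb (LinearMap.ext hcon)
  set u := e b v with hu
  have hub : e b u = u := h.idem' b v
  have hMu : M u ≠ 0 := hv
  obtain ⟨-, A, hA, hAu⟩ := fb u hub
  have hAf : ∀ w, e b w = w → A w = ω w u • u := by
    intro w hw
    have : (A * e b) w = trv ω u w := by rw [hAu]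
    rw [trv_apply] at this
    rw [← this]
    change _ = A (e b w)
    rw [hw]
  have h1 : M * A * M * e b = -trv ω (M u) := by
    ext w
    rw [h.mid_e hM hA]
    have hw1 : e b ((M * e b) w) = (M * e b) w := h.range_e hM ⟨w, rfl⟩
    rw [hAf _ hw1, map_smul]
    have e1 : (M * e b) u = M u := by change M (e b u) = _; rw [hub]
    rw [e1]
    change ω (M (e b w)) u • M u = -(ω w (M u) • M u)
    rw [h.skew M hM, h.self, h.fixA hM hub, neg_smul]
  have h2 := hall A hA
  rw [h1] at h2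
  set κ := ω (A d) d with hκ
  have hκ0 : κ ≠ 0 := by
    intro h0
    rw [h0, zero_smul, neg_eq_zero] at h2
    exact htn hMu h2
  obtain ⟨a, ha⟩ := IsAlgClosed.exists_pow_nat_eq (-κ⁻¹) (n := 2) (by norm_num)
  have ha0 : a ≠ 0 := by
    rintro rfl
    have : -κ⁻¹ = 0 := by rw [← ha]; norm_num
    exact hκ0 (inv_eq_zero.1 (neg_eq_zero.1 this))
  set x := a • M u with hx
  have hxb : e b x = x := by rw [hx, map_smul, h.fixA hM hub]
  have hx0 : x ≠ 0 := smul_ne_zero ha0 hMu
  have hMx : M * e b = trv ω x := by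
    have e1 : M * e b = κ⁻¹ • (κ • (M * e b)) := by
      rw [smul_smul, inv_mul_cancel₀ hκ0, one_smul]
    rw [e1, ← h2]
    ext w
    change κ⁻¹ • (-(trv ω (M u) w)) = trv ω x w
    rw [trv_apply, trv_apply, hx, map_smul, smul_smul, smul_eq_mul, ← neg_smul, smul_smul]
    congr 1
    have : κ⁻¹ = -(a * a) := by rw [← neg_eq_iff_eq_neg, ← ha]; ring
    rw [this]; ring
  clear_value x
  -- compare with the component at `c`
  have hsq : ∀ γ, (ω x (r γ x)) ^ 2 = (ω d (r γ d)) ^ 2 := by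
    intro γ
    obtain ⟨q, hq, hsim, htr⟩ := h.conj_trv γ
    have h3 := hall _ (h.conj γ M hM)
    have h4 : ∀ (a : B) (y : V), M * e a = trv ω y →
        (r γ * M * r γ⁻¹) * e a = q⁻¹ • trv ω (r γ y) := by
      intro a y hay
      have h5 : r γ * M * r γ⁻¹ * e a = r γ * (M * e a) * r γ⁻¹ := by
        rw [mul_assoc, mul_assoc, ← h.rcomm, mul_assoc, mul_assoc]
      rw [h5, hay, htr]
    have h6 : ∀ (a : B) (y : V), e a y = y → M * e a = trv ω y →
        (r γ * M * r γ⁻¹) y = (q⁻¹ * ω y (r γ y)) • r γ y := by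
      intro a y hy hay
      have h7 := congrArg (fun f : Module.End K V => f y) (h4 a y hay)
      have h8 : ((r γ * M * r γ⁻¹) * e a) y = (r γ * M * r γ⁻¹) y := by
        change (r γ * M * r γ⁻¹) (e a y) = _
        rw [hy]
      rw [← h8, h7]
      change q⁻¹ • trv ω (r γ y) y = _
      rw [trv_apply, smul_smul]
    have h9 : M * (r γ * M * r γ⁻¹) * M * e b =
        (q⁻¹ * ω x (r γ x) * ω (r γ x) x) • trv ω x := by
      have e1 : M * (r γ * M * r γ⁻¹) * M * e b = trv ω x * (r γ * M * r γ⁻¹) * trv ω x := by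
        ext w
        rw [h.mid_e hM (h.conj γ M hM), hMx]; rfl
      rw [e1, trv_mid, h6 b x hxb hMx]
      simp only [map_smul, LinearMap.smul_apply, smul_eq_mul]
    rw [h9, hMx, h6 c d hd hMd] at h3
    have h10 : q⁻¹ * ω x (r γ x) * ω (r γ x) x =
        ω ((q⁻¹ * ω d (r γ d)) • (r γ d)) d := smul_left_injective K (htn hx0) h3
    simp only [map_smul, LinearMap.smul_apply, smul_eq_mul] at h10
    rw [h.anti (r γ x), h.anti (r γ d)] at h10
    have h11 : q⁻¹ * ((ω x (r γ x)) ^ 2 - (ω d (r γ d)) ^ 2) = 0 := by linear_combination -h10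
    rcases mul_eq_zero.1 h11 with h12 | h12
    · exact absurd (inv_eq_zero.1 h12) hq
    · exact sub_eq_zero.1 h12
  have hcross : ∀ γ, ω x (r γ d) = 0 ∧ ω d (r γ x) = 0 := fun γ =>
    ⟨h.perp hbc hxb (h.fixr γ hd), h.perp (Ne.symm hbc) hd (h.fixr γ hxb)⟩
  have hne : ∀ ε : K, ∃ γ, ω (x + ε • d) (r γ (x + d)) ≠ 0 := by
    intro ε
    by_contra hcon
    push Not at hcon
    have hdb : e b d = 0 := h.orthf hbc hd
    have hs1 : (∑ a, e a) x = x := h.fsum hxb
    have hs2 : (∑ a, e a) d = d := h.fsum hd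
    rcases h.falt _ _ (by rw [map_add, map_smul, hs1, hs2]) (by rw [map_add, hs1, hs2]) hcon b
      with h3 | h3
    · rw [map_add, hxb, hdb, add_zero] at h3
      exact hx0 h3
    · rw [map_add, map_smul, hxb, hdb, smul_zero, add_zero] at h3
      exact hx0 h3
  obtain ⟨γ, h3, h4, -⟩ := h.gen (x + (1 : K) • d) (x + d) (x + (-1 : K) • d) (x + d)
    (x + (1 : K) • d) (x + d) (hne 1) (hne (-1)) (hne 1)
  have h5 : ∀ ε : K, ω (x + ε • d) (r γ (x + d)) = ω x (r γ x) + ε * ω d (r γ d) := by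
    intro ε
    simp only [map_add, map_smul, LinearMap.add_apply, LinearMap.smul_apply, smul_eq_mul]
    rw [(hcross γ).1, (hcross γ).2]; ring
  rw [h5] at h3 h4
  have h6 : (ω x (r γ x) + 1 * ω d (r γ d)) * (ω x (r γ x) + -1 * ω d (r γ d)) = 0 := by
    linear_combination hsq γ
  rcases mul_eq_zero.1 h6 with h7 | h7
  · exact h3 h7
  · exact h4 h7

/-- If every component has a seed, `g` contains (the natural extensions of) all transvections of
all components. -/
theorem main (hseed : ∀ b, Seed ω e g b) {b : B} {w : V} (hw : e b w = w) :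
    ∃ A ∈ g, A * e b = trv ω w ∧ ∀ c, c ≠ b → A * e c = 0 := by
  have hfull : ∀ b w, e b w = w → w ∈ D ω e g b := by
    intro b w hw
    obtain ⟨M, hM, -, d, hd, hd0, hMd⟩ := hseed b
    exact h.full ⟨hd, M, hM, hMd⟩ hd0 hw
  have hP : ∀ b c, b ≠ c → Pbc ω e g b c := by
    intro b c hbc
    obtain ⟨A, hA, hAc, hAb⟩ := h.indep hbc (hseed b) (hseed c) (hfull b) (hfull c)
    exact h.pbc_of (hfull b) hA hAc hAb
  have key : ∀ T : Finset B, b ∉ T → ∀ w, e b w = w →
      ∃ A ∈ g, A * e b = trv ω w ∧ ∀ c ∈ T, A * e c = 0 := by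
    intro T
    induction T using Finset.induction_on with
    | empty =>
      intro _ w hw
      obtain ⟨-, A, hA, hAw⟩ := hfull b w hw
      exact ⟨A, hA, hAw, fun c hc => absurd hc (Finset.notMem_empty c)⟩
    | insert c T hcT ih =>
      intro hbT w hw
      rw [Finset.mem_insert, not_or] at hbT
      by_cases hw0 : w = 0
      · refine ⟨0, g.zero_mem, ?_, fun c _ => zero_mul _⟩
        rw [hw0, zero_mul]
        ext v
        rw [trv_apply, smul_zero]; rfl
      obtain ⟨x, hx⟩ := h.ex hw hw hw0 hw0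
      set u := r x w with hu
      have hub : e b u = u := h.fixr x hw
      obtain ⟨A, hA, hAb, hAT⟩ := ih hbT.2 w hw
      obtain ⟨C, hC, hCb, hCc⟩ := hP b c hbT.1 u hub
      have hne : -2 * (ω w u * ω u w) ≠ 0 := by
        have : ω u w ≠ 0 := by rw [h.anti]; exact neg_ne_zero.2 hx
        exact mul_ne_zero (by norm_num) (mul_ne_zero hx this)
      refine ⟨(-2 * (ω w u * ω u w))⁻¹ • (A * (A * C - C * A) - (A * C - C * A) * A),
        g.smul_mem _ (h.dbl hA hC), ?_, ?_⟩
      · rw [smul_mul_assoc, h.dbl_e hA hC b (by rw [hAb, trv_sq h.alt]), hAb, hCb, trv_mid,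
          smul_smul, smul_smul, trv_apply, map_smul, LinearMap.smul_apply, smul_eq_mul]
        rw [mul_assoc, inv_mul_cancel₀ hne, one_smul]
      · intro a ha
        rw [smul_mul_assoc]
        rcases Finset.mem_insert.1 ha with rfl | ha
        · rw [h.dbl_kill hA hC hCc, smul_zero]
        · rw [h.dbl_kill' hA hC (hAT a ha), smul_zero]
  obtain ⟨A, hA, hAb, hAT⟩ := key (Finset.univ.erase b) (Finset.notMem_erase b _) w hw
  exact ⟨A, hA, hAb, fun c hc => hAT c (Finset.mem_erase.2 ⟨hc, Finset.mem_univ c⟩)⟩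

end Setup

end Pool.Agent.H76RM
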