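import Pool.Agent.Lib.H53Toric.Indep2

/-!
# Subgroups of finite index with irreducible Zariski closure
-/

set_option autoImplicit false
set_option linter.unusedSectionVars false
namespace Pool.Agent.H76RM
open Module Matrix Pool.Agent.H53Toric MvPolynomial

variable {ι : Type*} [Fintype ι] [DecidableEq ι] {L : Type*} [Field L] {K : Type*} [Field K]
  [Algebra L K] {G : Type*} [Group G]

/-- vanishing ideal -/
noncomputable def van (S : Set (Matrix ι ι K)) : Ideal (MvPolynomial (ι × ι) K) where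
  carrier := {f | ∀ s ∈ S, ev s f = 0}
  add_mem' := by
    intro f g hf hg s hs
    rw [map_add, hf s hs, hg s hs, add_zero]
  zero_mem' := by
    intro s _
    rw [map_zero]
  smul_mem' := by
    intro c f hf s hs
    rw [smul_eq_mul, map_mul, hf s hs, mul_zero]

theorem mem_van {S : Set (Matrix ι ι K)} {f : MvPolynomial (ι × ι) K} :
    f ∈ van S ↔ ∀ s ∈ S, ev s f = 0 := Iff.rfl

theorem ev_ext [Infinite K] {f g : MvPolynomial (ι × ι) K} (h : ∀ x, ev x f = ev x g) :
    f = g := by
  apply MvPolynomial.funext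
  intro y
  have := h (Matrix.of fun i j => y (i, j))
  simp only [ev, MvPolynomial.aeval_eq_eval] at this
  exact this

theorem subL_subL [Infinite K] (a b : Matrix ι ι K) (f : MvPolynomial (ι × ι) K) :
    subL b (subL a f) = subL (a * b) f := by
  apply ev_ext
  intro x
  rw [ev_subL, ev_subL, ev_subL, mul_assoc]

theorem subL_one [Infinite K] (f : MvPolynomial (ι × ι) K) : subL 1 f = f := by
  apply ev_ext
  intro x
  rw [ev_subL, one_mul]

/-- translation of ideals -/
@[instance_reducible]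
noncomputable def act (K' : Type*) [Field K'] [Algebra L K'] [Infinite K']
    (ρ : G →* Matrix.GeneralLinearGroup ι L) :
    MulAction G (Ideal (MvPolynomial (ι × ι) K')) where
  smul s P := Ideal.comap (subL ((ρ s).1.map (algebraMap L K'))).toRingHom P
  one_smul := by
    intro P
    ext f
    change subL ((ρ 1).1.map (algebraMap L K')) f ∈ P ↔ f ∈ P
    have : (ρ (1 : G)).1.map (algebraMap L K') = 1 := by rw [map_one]; simp
    rw [this, subL_one]
  mul_smul := by
    intro s t P
    ext f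
    change subL ((ρ (s * t)).1.map (algebraMap L K')) f ∈ P ↔
      subL ((ρ t).1.map (algebraMap L K')) (subL ((ρ s).1.map (algebraMap L K')) f) ∈ P
    rw [subL_subL, map_mul, Units.val_mul, Matrix.map_mul]

theorem van_anti (ρ : G →* Matrix.GeneralLinearGroup ι L) {H H' : Subgroup G} (h : H' ≤ H) :
    van (img K ρ H) ≤ van (img K ρ H') := by
  rintro f hf _ ⟨σ, hσ, rfl⟩
  exact hf _ ⟨σ, h hσ, rfl⟩

/-- Every subgroup of finite index contains one whose image has an irreducible Zariski closure. -/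
theorem exists_prime [Infinite K] (ρ : G →* Matrix.GeneralLinearGroup ι L) (H : Subgroup G)
    (hH : H.FiniteIndex) : ∃ H₀ ≤ H, H₀.FiniteIndex ∧ (van (img K ρ H₀)).IsPrime := by
  classical
  -- minimal closure
  obtain ⟨I, ⟨H₀, ⟨hle, hfin⟩, rfl⟩, hmax⟩ := set_has_maximal_iff_noetherian.2
    (inferInstance : IsNoetherian (MvPolynomial (ι × ι) K) (MvPolynomial (ι × ι) K))
    ((fun H' => van (img K ρ H')) '' {H' | H' ≤ H ∧ H'.FiniteIndex})
    ⟨_, H, ⟨le_rfl, hH⟩, rfl⟩
  refine ⟨H₀, hle, hfin, ?_⟩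
  have hmin : ∀ H' ≤ H₀, H'.FiniteIndex → van (img K ρ H') = van (img K ρ H₀) := by
    intro H' h1 h2
    by_contra hne
    exact hmax _ ⟨H', ⟨h1.trans hle, h2⟩, rfl⟩
      (lt_of_le_of_ne (van_anti ρ h1) (Ne.symm hne))
  -- the component of `1`
  set m : Ideal (MvPolynomial (ι × ι) K) := RingHom.ker (ev (1 : Matrix ι ι K)).toRingHom with hm
  have hmp : m.IsPrime := RingHom.ker_isPrime _
  have hIm : van (img K ρ H₀) ≤ m := by
    intro f hf
    exact hf 1 (img_one ρ H₀)
  obtain ⟨P, hP, hPm⟩ := Ideal.exists_minimalPrimes_le hIm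
  letI := act K ρ
  have hsmul : ∀ (s : G) (Q : Ideal (MvPolynomial (ι × ι) K)) (f : MvPolynomial (ι × ι) K),
      f ∈ s • Q ↔ subL ((ρ s).1.map (algebraMap L K)) f ∈ Q := fun _ _ _ => Iff.rfl
  have hI : ∀ s ∈ H₀, s • van (img K ρ H₀) = van (img K ρ H₀) := by
    intro s hs
    ext f
    rw [hsmul]
    constructor
    · intro h1 x hx
      obtain ⟨τ, hτ, rfl⟩ := hx
      have := h1 _ ⟨s⁻¹ * τ, H₀.mul_mem (H₀.inv_mem hs) hτ, rfl⟩
      rw [ev_subL] at this
      rw [← this]
      congr 2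
      rw [← Matrix.map_mul, ← Units.val_mul, ← map_mul, mul_inv_cancel_left]
    · intro h1 x hx
      rw [ev_subL]
      exact h1 _ (img_mul ρ H₀ _ ⟨s, hs, rfl⟩ _ hx)
  have hmono : ∀ (s : G) {Q Q' : Ideal (MvPolynomial (ι × ι) K)}, Q ≤ Q' → s • Q ≤ s • Q' := by
    intro s Q Q' h f hf
    exact h hf
  have hprime : ∀ (s : G) {Q : Ideal (MvPolynomial (ι × ι) K)}, Q.IsPrime → (s • Q).IsPrime := by
    intro s Q hQ
    exact Ideal.comap_isPrime _ _
  have hmem : ∀ s ∈ H₀, s • P ∈ (van (img K ρ H₀)).minimalPrimes := by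
    intro s hs
    refine ⟨⟨hprime s hP.1.1, ?_⟩, ?_⟩
    · have := hmono s hP.1.2
      rwa [hI s hs] at this
    · rintro Q ⟨hQ1, hQ2⟩ hQP
      have h1 : s⁻¹ • Q ≤ P := by
        have := hmono s⁻¹ hQP
        rwa [inv_smul_smul] at this
      have h2 : van (img K ρ H₀) ≤ s⁻¹ • Q := by
        have := hmono s⁻¹ hQ2
        rwa [hI _ (H₀.inv_mem hs)] at this
      have h3 := hP.2 ⟨hprime s⁻¹ hQ1, h2⟩ h1
      have := hmono s h3
      rwa [smul_inv_smul] at this
  -- its stabiliser
  have hfinorb : (MulAction.orbit H₀ P).Finite := by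
    apply ((van (img K ρ H₀)).finite_minimalPrimes_of_isNoetherianRing).subset
    rintro _ ⟨s, rfl⟩
    exact hmem s.1 s.2
  set T : Subgroup G := H₀ ⊓ MulAction.stabilizer G P with hT
  have hTfin : T.FiniteIndex := by
    rw [Subgroup.finiteIndex_iff]
    have h1 : T ≤ H₀ := inf_le_left
    rw [← Subgroup.relIndex_mul_index h1]
    apply mul_ne_zero _ hfin.index_ne_zero
    have h2 : T.subgroupOf H₀ = MulAction.stabilizer H₀ P := by
      ext x
      rw [Subgroup.mem_subgroupOf, hT, Subgroup.mem_inf, MulAction.mem_stabilizer_iff,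
        MulAction.mem_stabilizer_iff]
      exact ⟨fun h => h.2, fun h => ⟨x.2, h⟩⟩
    rw [Subgroup.relIndex, h2, MulAction.index_stabilizer]
    exact ((Set.ncard_pos hfinorb).2 (MulAction.nonempty_orbit P)).ne'
  have h3 : P ≤ van (img K ρ T) := by
    rintro f hf _ ⟨s, hs, rfl⟩
    have h4 : s • P = P := hs.2
    rw [← h4, hsmul] at hf
    have h5 : ev (1 : Matrix ι ι K) (subL ((ρ s).1.map (algebraMap L K)) f) = 0 := hPm hf
    rwa [ev_subL, mul_one] at h5
  rw [hmin T inf_le_left hTfin] at h3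
  have h6 : van (img K ρ H₀) = P := le_antisymm hP.1.2 h3
  rw [h6]
  exact hP.1.1

end Pool.Agent.H76RM
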