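import Pool.Agent.Lib.H76RM.Defs
import Pool.Agent.Lib.H76RM.Prime
import Pool.Agent.Lib.H76RM.Core4
import Pool.Agent.Lib.H53Toric.Assemble2

/-!
# Commutants, matrix coefficients
-/

set_option autoImplicit false
set_option linter.unusedSectionVars false
namespace Pool.Agent.H76RM
open Module Matrix Pool.Agent.H53Toric MvPolynomial

variable {ι : Type*} [Fintype ι] [DecidableEq ι] {K : Type*} [Field K]

/-- the polynomial `(x d - d x)_{ij}` -/
noncomputable def commP (d : Matrix ι ι K) (i j : ι) : MvPolynomial (ι × ι) K :=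
  ∑ k, (X (i, k) * C (d k j) - C (d i k) * X (k, j))

theorem ev_commP (d x : Matrix ι ι K) (i j : ι) : ev x (commP d i j) = (x * d - d * x) i j := by
  rw [commP, map_sum, Matrix.sub_apply, Matrix.mul_apply, Matrix.mul_apply,
    ← Finset.sum_sub_distrib]
  apply Finset.sum_congr rfl
  intro k _
  rw [map_sub, map_mul, map_mul, ev_X, ev_C, ev_C, ev_X]

theorem zar_commute {S : Set (Matrix ι ι K)} {d : Matrix ι ι K} (h : ∀ s ∈ S, s * d = d * s)
    {x : Matrix ι ι K} (hx : x ∈ zar S) : x * d = d * x := by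
  have h1 : x * d - d * x = 0 := by
    ext i j
    rw [← ev_commP]
    apply hx
    intro s hs
    rw [ev_commP, h s hs, sub_self]; rfl
  exact sub_eq_zero.1 h1

theorem zlie_commute [Infinite K] {S : Set (Matrix ι ι K)} (hS1 : (1 : Matrix ι ι K) ∈ S) {d : Matrix ι ι K}
    (h : ∀ s ∈ S, s * d = d * s) {A : Matrix ι ι K} (hA : A ∈ zlie S) : A * d = d * A := by
  have h1 : A * d - d * A = 0 := by
    ext i j
    have h2 := hA (commP d i j) (by
      intro s hs
      rw [ev_commP, h s hs, sub_self]; rfl) 1 hS1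
    rw [← eval_derivative_lin] at h2
    have h3 : lin 1 (1 * A) (commP d i j) = Polynomial.X * Polynomial.C ((A * d - d * A) i j) := by
      apply Polynomial.funext
      intro t
      rw [eval_lin, ev_commP, one_mul]
      have e1 : (1 + t • A) * d - d * (1 + t • A) = t • (A * d - d * A) := by
        rw [add_mul, mul_add, one_mul, mul_one, smul_mul_assoc, mul_smul_comm]
        module
      rw [e1, Matrix.smul_apply, smul_eq_mul]
      simp
    rw [h3] at h2
    simpa using h2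
  exact sub_eq_zero.1 h1

/-- matrix coefficient -/
noncomputable def coeP (J : Matrix ι ι K) (u v : ι → K) : MvPolynomial (ι × ι) K :=
  ∑ k, ∑ j, C ((Matrix.vecMul u J) k * v j) * X (k, j)

theorem ev_coeP (J x : Matrix ι ι K) (u v : ι → K) :
    ev x (coeP J u v) = om J u (x *ᵥ v) := by
  rw [coeP, map_sum, om_apply, Matrix.dotProduct_mulVec]
  rw [dotProduct]
  apply Finset.sum_congr rfl
  intro k _
  rw [map_sum, Matrix.mulVec, dotProduct, Finset.mul_sum]
  apply Finset.sum_congr rfl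
  intro j _
  rw [map_mul, ev_C, ev_X]
  ring

theorem gen_of_prime {J : Matrix ι ι K} {S : Set (Matrix ι ι K)} (hp : (van S).IsPrime)
    {u₁ v₁ u₂ v₂ u₃ v₃ : ι → K} (h1 : ∃ s ∈ S, om J u₁ (s *ᵥ v₁) ≠ 0)
    (h2 : ∃ s ∈ S, om J u₂ (s *ᵥ v₂) ≠ 0) (h3 : ∃ s ∈ S, om J u₃ (s *ᵥ v₃) ≠ 0) :
    ∃ s ∈ S, om J u₁ (s *ᵥ v₁) ≠ 0 ∧ om J u₂ (s *ᵥ v₂) ≠ 0 ∧ om J u₃ (s *ᵥ v₃) ≠ 0 := by
  by_contra hcon
  push Not at hcon
  have key : coeP J u₁ v₁ * (coeP J u₂ v₂ * coeP J u₃ v₃) ∈ van S := by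
    intro s hs
    rw [map_mul, map_mul, ev_coeP, ev_coeP, ev_coeP]
    by_cases a1 : om J u₁ (s *ᵥ v₁) = 0
    · rw [a1, zero_mul]
    by_cases a2 : om J u₂ (s *ᵥ v₂) = 0
    · rw [a2, zero_mul, mul_zero]
    rw [hcon s hs a1 a2, mul_zero, mul_zero]
  have hnot : ∀ u v : ι → K, (∃ s ∈ S, om J u (s *ᵥ v) ≠ 0) → coeP J u v ∉ van S := by
    rintro u v ⟨s, hs, hne⟩ hmem
    apply hne
    rw [← ev_coeP]
    exact hmem s hs
  rcases hp.mem_or_mem key with h | h
  · exact hnot _ _ h1 h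
  · rcases hp.mem_or_mem h with h | h
    · exact hnot _ _ h2 h
    · exact hnot _ _ h3 h

end Pool.Agent.H76RM
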