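import Pool.Agent.Lib.H53Toric.Symp

/-!
# Lie algebras of skew operators: components of small rank and independence

Setting: `⊕ V_b ⊆ V` (self adjoint orthogonal projectors `e b` for an alternating form `ω`), a Lie
algebra `g` of skew operators commuting with the `e b`, a group acting by similitudes `r x` and
normalising `g`; `falt`: in `⊕ V_b` the only invariant subspaces are sums of `V_b`s.
-/

set_option autoImplicit false
set_option linter.unusedSectionVars false
namespace Pool.Agent.H76RM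
open Module Pool.Agent.H53Toric

variable {K : Type*} [Field K] {V : Type*} [AddCommGroup V] [Module K V]
variable {B : Type*} [Fintype B] [DecidableEq B] {Γ : Type*} [Group Γ]

structure Setup (ω : V →ₗ[K] V →ₗ[K] K) (e : B → Module.End K V)
    (g : Submodule K (Module.End K V)) (r : Γ →* Module.End K V) : Prop where
  alt : ∀ v, ω v v = 0
  lie : ∀ A ∈ g, ∀ C ∈ g, A * C - C * A ∈ g
  skew : ∀ A ∈ g, ∀ v w, ω (A v) w = - ω v (A w)
  sim : ∀ x, ∃ c : K, c ≠ 0 ∧ ∀ v w, ω (r x v) (r x w) = c * ω v w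
  conj : ∀ x, ∀ A ∈ g, r x * A * r x⁻¹ ∈ g
  idem : ∀ b, e b * e b = e b
  orth : ∀ b c, b ≠ c → e b * e c = 0
  nd : ∀ u, (∀ w, ω u w = 0) → u = 0
  self : ∀ b v w, ω (e b v) w = ω v (e b w)
  gcomm : ∀ b, ∀ A ∈ g, e b * A = A * e b
  rcomm : ∀ b x, e b * r x = r x * e b
  gen : ∀ u₁ v₁ u₂ v₂ u₃ v₃ : V, (∃ x, ω u₁ (r x v₁) ≠ 0) → (∃ x, ω u₂ (r x v₂) ≠ 0) →
    (∃ x, ω u₃ (r x v₃) ≠ 0) →
    ∃ x, ω u₁ (r x v₁) ≠ 0 ∧ ω u₂ (r x v₂) ≠ 0 ∧ ω u₃ (r x v₃) ≠ 0
  falt : ∀ u v : V, (∑ b, e b) u = u → (∑ b, e b) v = v → (∀ x, ω u (r x v) = 0) →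
    ∀ b, e b v = 0 ∨ e b u = 0

variable {ω : V →ₗ[K] V →ₗ[K] K} {e : B → Module.End K V}
    {g : Submodule K (Module.End K V)} {r : Γ →* Module.End K V}

theorem anti0 (halt : ∀ v, ω v v = 0) (v w : V) : ω v w = -ω w v := by
  have h := halt (v + w)
  simp only [map_add, LinearMap.add_apply, halt, zero_add, add_zero] at h
  linear_combination h

namespace Setup

variable (h : Setup ω e g r)
include h

theorem anti (v w : V) : ω v w = - ω w v := anti0 h.alt v w

theorem idem' (b : B) (v : V) : e b (e b v) = e b v := by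
  have := congrArg (fun f : Module.End K V => f v) (h.idem b)
  exact this

theorem orth' {b c : B} (hbc : b ≠ c) (v : V) : e b (e c v) = 0 := by
  have := congrArg (fun f : Module.End K V => f v) (h.orth b c hbc)
  exact this

theorem orthf {b c : B} (hbc : b ≠ c) {v : V} (hv : e c v = v) : e b v = 0 := by
  rw [← hv]; exact h.orth' hbc v

theorem ecomm {A : Module.End K V} (hA : A ∈ g) (b : B) (v : V) : e b (A v) = A (e b v) := by
  have := congrArg (fun f : Module.End K V => f v) (h.gcomm b A hA)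
  exact this

theorem ercomm (x : Γ) (b : B) (v : V) : e b (r x v) = r x (e b v) := by
  have := congrArg (fun f : Module.End K V => f v) (h.rcomm b x)
  exact this

theorem fixA {A : Module.End K V} (hA : A ∈ g) {b : B} {v : V} (hv : e b v = v) :
    e b (A v) = A v := by
  rw [h.ecomm hA, hv]

theorem fixr (x : Γ) {b : B} {v : V} (hv : e b v = v) : e b (r x v) = r x v := by
  rw [h.ercomm, hv]

/-- different components are orthogonal -/
theorem perp {b c : B} (hbc : b ≠ c) {v w : V} (hv : e b v = v) (hw : e c w = w) : ω v w = 0 := by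
  rw [← hv, h.self, h.orthf hbc hw, map_zero]

theorem fsum {b : B} {v : V} (hv : e b v = v) : (∑ c, e c) v = v := by
  rw [LinearMap.sum_apply, Finset.sum_eq_single b]
  · exact hv
  · intro c _ hcb
    exact h.orthf hcb hv
  · intro hb
    exact absurd (Finset.mem_univ b) hb

theorem nd' {b : B} {u : V} (hb : e b u = u) (hu : ∀ w, e b w = w → ω u w = 0) : u = 0 := by
  apply h.nd
  intro w
  rw [← hb, h.self]
  exact hu _ (h.idem' b w)

/-- `ω(u, Γ v) ≠ 0` for nonzero vectors of one component -/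
theorem ex {b : B} {u v : V} (hu : e b u = u) (hv : e b v = v) (hu0 : u ≠ 0) (hv0 : v ≠ 0) :
    ∃ x, ω u (r x v) ≠ 0 := by
  by_contra hcon
  push Not at hcon
  rcases h.falt u v (h.fsum hu) (h.fsum hv) hcon b with h1 | h1
  · exact hv0 (by rw [← hv, h1])
  · exact hu0 (by rw [← hu, h1])

/-- double bracket -/
theorem dbl {A C : Module.End K V} (hA : A ∈ g) (hC : C ∈ g) :
    A * (A * C - C * A) - (A * C - C * A) * A ∈ g := h.lie A hA _ (h.lie A hA C hC)

theorem trv_e {b : B} {d : V} (hd : e b d = d) : trv ω d * e b = trv ω d := by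
  ext v
  change trv ω d (e b v) = _
  rw [trv_apply, trv_apply, h.self, hd]

theorem trv_e0 {b c : B} (hbc : b ≠ c) {d : V} (hd : e b d = d) : trv ω d * e c = 0 := by
  ext v
  change trv ω d (e c v) = _
  rw [trv_apply, h.self, h.orthf (Ne.symm hbc) hd, map_zero, zero_smul]; rfl

theorem rr (x : Γ) (v : V) : r x (r x⁻¹ v) = v := by
  have h1 : r x * r x⁻¹ = 1 := by rw [← map_mul, mul_inv_cancel, map_one]
  have := congrArg (fun f : Module.End K V => f v) h1
  exact this

theorem conj_trv (x : Γ) : ∃ c : K, c ≠ 0 ∧ (∀ v w, ω (r x v) (r x w) = c * ω v w) ∧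
    ∀ d, r x * trv ω d * r x⁻¹ = c⁻¹ • trv ω (r x d) := by
  obtain ⟨c, hc, hsim⟩ := h.sim x
  refine ⟨c, hc, hsim, fun d => ?_⟩
  ext v
  change r x (trv ω d (r x⁻¹ v)) = c⁻¹ • trv ω (r x d) v
  rw [trv_apply, trv_apply, map_smul, smul_smul]
  congr 1
  have h1 := hsim (r x⁻¹ v) d
  rw [h.rr] at h1
  rw [h1]
  field_simp

end Setup

/-- the vectors `d` of `V_b` such that some element of `g` induces `trv d` on `V_b` -/
def D (ω : V →ₗ[K] V →ₗ[K] K) (e : B → Module.End K V)
    (g : Submodule K (Module.End K V)) (b : B) : Set V :=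
  {d | e b d = d ∧ ∃ A ∈ g, A * e b = trv ω d}

namespace Setup

variable (h : Setup ω e g r)
include h

theorem D_smul {b : B} {d : V} (hd : d ∈ D ω e g b) (c : K) : c • d ∈ D ω e g b := by
  obtain ⟨hd1, A, hA, hAd⟩ := hd
  refine ⟨by rw [map_smul, hd1], (c * c) • A, g.smul_mem _ hA, ?_⟩
  rw [smul_mul_assoc, hAd]
  ext v
  change (c * c) • trv ω d v = trv ω (c • d) v
  rw [trv_apply, trv_apply, map_smul, smul_smul, smul_smul, smul_eq_mul]
  congr 1
  ring

theorem D_r {b : B} {d : V} (hd : d ∈ D ω e g b) (x : Γ) : r x d ∈ D ω e g b := by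
  obtain ⟨hd1, A, hA, hAd⟩ := hd
  obtain ⟨c, hc, -, h2⟩ := h.conj_trv x
  refine ⟨h.fixr x hd1, c • (r x * A * r x⁻¹), g.smul_mem _ (h.conj x A hA), ?_⟩
  have h3 : r x * A * r x⁻¹ * e b = r x * (A * e b) * r x⁻¹ := by
    rw [mul_assoc, mul_assoc, ← h.rcomm, mul_assoc, mul_assoc]
  rw [smul_mul_assoc, h3, hAd, h2, smul_smul, mul_inv_cancel₀ hc, one_smul]

end Setup

/-- the transvection formula for the operators `trv` -/
theorem trv_trans (halt : ∀ v, ω v v = 0) (u w : V) (t : K) :
    trv ω (u + (t * ω u w) • w) = trv ω u + t • (trv ω w * trv ω u - trv ω u * trv ω w) -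
      (t * t) • (trv ω w * trv ω u * trv ω w) := by
  ext v
  change trv ω (u + (t * ω u w) • w) v = trv ω u v +
    t • (trv ω w (trv ω u v) - trv ω u (trv ω w v)) - (t * t) • (trv ω w (trv ω u (trv ω w v)))
  simp only [trv_apply, map_add, map_smul, LinearMap.add_apply, LinearMap.smul_apply, smul_eq_mul,
    smul_add, smul_smul, smul_sub, add_smul]
  rw [anti0 halt w u]
  module

/-- `trv w * A * trv w` for a skew operator -/
theorem trv_mid (w : V) (A : Module.End K V) :
    trv ω w * A * trv ω w = ω (A w) w • trv ω w := by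
  ext v
  change trv ω w (A (trv ω w v)) = ω (A w) w • trv ω w v
  simp only [trv_apply, map_smul, LinearMap.smul_apply, smul_eq_mul, smul_smul]
  congr 1
  ring

namespace Setup

variable (h : Setup ω e g r)
include h

/-- compatibility of products with the projector -/
theorem mul_e {A C : Module.End K V} (_hA : A ∈ g) (hC : C ∈ g) (b : B) :
    A * C * e b = (A * e b) * (C * e b) := by
  have h1 : A * e b * (C * e b) = A * (e b * C) * e b := by simp only [mul_assoc]
  rw [h1, h.gcomm b C hC, ← mul_assoc A C (e b), mul_assoc (A * C), h.idem]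

theorem mul_e' {A C : Module.End K V} (hA : A ∈ g) (hC : C ∈ g) (b : B) :
    (A * C - C * A) * e b = (A * e b) * (C * e b) - (C * e b) * (A * e b) := by
  rw [sub_mul, h.mul_e hA hC, h.mul_e hC hA]

theorem dbl_e {A C : Module.End K V} (hA : A ∈ g) (hC : C ∈ g) (b : B)
    (h2 : (A * e b) * (A * e b) = 0) :
    (A * (A * C - C * A) - (A * C - C * A) * A) * e b =
      (-2 : K) • ((A * e b) * (C * e b) * (A * e b)) := by
  rw [h.mul_e' hA (h.lie A hA C hC), h.mul_e' hA hC]
  have e1 : A * e b * (A * e b * (C * e b) - C * e b * (A * e b)) -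
      (A * e b * (C * e b) - C * e b * (A * e b)) * (A * e b) =
      (A * e b) * (A * e b) * (C * e b) - (2 : K) • ((A * e b) * (C * e b) * (A * e b)) +
      (C * e b) * ((A * e b) * (A * e b)) := by
    simp only [mul_sub, sub_mul, mul_assoc, two_smul]
    abel
  rw [e1, h2, zero_mul, mul_zero, add_zero, zero_sub, neg_smul]

theorem D_trans {b : B} {u w : V} (hu : u ∈ D ω e g b) (hw : w ∈ D ω e g b) [CharZero K]
    (t : K) : u + (t * ω u w) • w ∈ D ω e g b := by
  obtain ⟨hu1, A, hA, hAu⟩ := hu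
  obtain ⟨hw1, C, hC, hCw⟩ := hw
  refine ⟨by rw [map_add, map_smul, hu1, hw1], A + t • (C * A - A * C) + (t * t / 2) •
    (C * (C * A - A * C) - (C * A - A * C) * C), ?_, ?_⟩
  · exact g.add_mem (g.add_mem hA (g.smul_mem _ (h.lie C hC A hA)))
      (g.smul_mem _ (h.dbl hC hA))
  · rw [add_mul, add_mul, smul_mul_assoc, smul_mul_assoc, h.mul_e' hC hA,
      h.dbl_e hC hA b (by rw [hCw, trv_sq h.alt]), hAu, hCw, trv_trans h.alt, smul_smul]
    have e1 : t * t / 2 * (-2 : K) = -(t * t) := by ring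
    rw [e1, neg_smul, ← sub_eq_add_neg]

theorem D_add0 {b : B} {u w : V} [CharZero K] (hu : u ∈ D ω e g b) (hw : w ∈ D ω e g b)
    (huw : ω u w ≠ 0) : u + w ∈ D ω e g b := by
  have h1 := h.D_trans hu hw (ω u w)⁻¹
  rwa [inv_mul_cancel₀ huw, one_smul] at h1

theorem D_zero {b : B} : (0 : V) ∈ D ω e g b := by
  refine ⟨map_zero _, 0, g.zero_mem, ?_⟩
  ext v
  change (0 : Module.End K V) _ = trv ω 0 v
  rw [trv_apply, smul_zero]; rfl

theorem D_neg {b : B} {d : V} (hd : d ∈ D ω e g b) : -d ∈ D ω e g b := by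
  rw [← neg_one_smul K d]; exact h.D_smul hd _

theorem D_add {b : B} {u w d : V} [CharZero K] (hu : u ∈ D ω e g b) (hw : w ∈ D ω e g b)
    (hd : d ∈ D ω e g b) (hd0 : d ≠ 0) : u + w ∈ D ω e g b := by
  by_cases hu0 : u = 0
  · rw [hu0, zero_add]; exact hw
  by_cases hw0 : w = 0
  · rw [hw0, add_zero]; exact hu
  by_cases huw : ω u w = 0
  swap
  · exact h.D_add0 hu hw huw
  by_cases hs : u + w = 0
  · rw [hs]; exact h.D_zero
  have hs1 : e b (u + w) = u + w := by rw [map_add, hu.1, hw.1]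
  obtain ⟨x, hx1, hx2, hx3⟩ := h.gen u d w d (u + w) d (h.ex hu.1 hd.1 hu0 hd0)
    (h.ex hw.1 hd.1 hw0 hd0) (h.ex hs1 hd.1 hs hd0)
  set z := r x d with hz
  have hzD : z ∈ D ω e g b := h.D_r hd x
  have h1 : u + z ∈ D ω e g b := h.D_add0 hu hzD hx1
  have h2 : w + -z ∈ D ω e g b := by
    apply h.D_add0 hw (h.D_neg hzD)
    rw [map_neg]; exact neg_ne_zero.2 hx2
  have h3 : u + z + (w + -z) ∈ D ω e g b := by
    apply h.D_add0 h1 h2
    have e1 : ω (u + z) (w + -z) = - ω (u + w) z := by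
      simp only [map_add, map_neg, LinearMap.add_apply]
      rw [huw, h.alt z, h.anti z w]
      ring
    rw [e1]; exact neg_ne_zero.2 hx3
  have e2 : u + z + (w + -z) = u + w := by abel
  rwa [e2] at h3

/-- If one nonzero `d` occurs, all vectors of the component do. -/
theorem full [CharZero K] [FiniteDimensional K V] {b : B} {d : V} (hd : d ∈ D ω e g b)
    (hd0 : d ≠ 0) {w : V} (hw : e b w = w) : w ∈ D ω e g b := by
  set W : Submodule K V :=
    { carrier := D ω e g b
      add_mem' := fun {_ _} ha hb => h.D_add ha hb hd hd0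
      zero_mem' := h.D_zero
      smul_mem' := fun c _ ha => h.D_smul ha c } with hW
  by_contra hcon
  have hcon' : w ∉ W := hcon
  obtain ⟨f, hf0, hfW⟩ := Submodule.exists_le_ker_of_notMem hcon'
  -- `f = ω u`
  have hinj : Function.Injective ω := by
    rw [← LinearMap.ker_eq_bot, LinearMap.ker_eq_bot']
    intro u hu
    apply h.nd
    intro w
    rw [hu]; rfl
  have hfin : finrank K V = finrank K (V →ₗ[K] K) := by
    rw [← Subspace.dual_finrank_eq (K := K) (V := V)]
  obtain ⟨u, hu⟩ := (LinearMap.injective_iff_surjective_of_finrank_eq_finrank hfin).1 hinj f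
  have h1 : ∀ x, ω (e b u) (r x d) = 0 := by
    intro x
    rw [h.self, h.fixr x hd.1, hu]
    exact hfW (show r x d ∈ W from h.D_r hd x)
  rcases h.falt (e b u) d (h.fsum (h.idem' b u)) (h.fsum hd.1) h1 b with h2 | h2
  · exact hd0 (by rw [← hd.1, h2])
  · rw [h.idem'] at h2
    apply hf0
    rw [← hu, ← hw, ← h.self, h2]
    simp

end Setup

end Pool.Agent.H76RM
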