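import Pool.Agent.Lib.H76RM.Core

/-!
# Components of rank at most two, and independence of the components
-/

set_option autoImplicit false
set_option linter.unusedSectionVars false
namespace Pool.Agent.H76RM
open Module Pool.Agent.H53Toric

variable {K : Type*} [Field K] {V : Type*} [AddCommGroup V] [Module K V]

theorem trv_ne {ω : V →ₗ[K] V →ₗ[K] K} (hnd : ∀ u, (∀ w, ω u w = 0) → u = 0)
    (halt : ∀ v, ω v v = 0) {d : V} (hd : d ≠ 0) : trv ω d ≠ 0 := by
  intro h0
  apply hd
  apply hnd
  intro w
  have h1 : trv ω d w = 0 := by rw [h0]; rfl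
  rw [trv_apply] at h1
  rcases smul_eq_zero.1 h1 with h2 | h2
  · rw [anti0 halt, h2, neg_zero]
  · rw [h2]; simp

/-- Peeling off a square from a skew operator. -/
theorem peel [IsAlgClosed K] [CharZero K] [FiniteDimensional K V] {ω : V →ₗ[K] V →ₗ[K] K}
    (halt : ∀ v, ω v v = 0) (hnd : ∀ u, (∀ w, ω u w = 0) → u = 0) {T : Module.End K V}
    (hT : ∀ v w, ω (T v) w = - ω v (T w)) (h0 : T ≠ 0) :
    ∃ (x : V) (T' : Module.End K V), T = trv ω x + T' ∧ (∃ y, T y = x) ∧
      (∀ v w, ω (T' v) w = - ω v (T' w)) ∧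
      finrank K (LinearMap.range T') < finrank K (LinearMap.range T) := by
  obtain ⟨v, hv⟩ : ∃ v, ω (T v) v ≠ 0 := by
    by_contra hcon
    push Not at hcon
    apply h0
    ext v
    apply hnd
    intro w
    have h1 := hcon (v + w)
    simp only [map_add, LinearMap.add_apply, hcon, zero_add, add_zero] at h1
    have h2 : ω (T w) v = ω (T v) w := by rw [hT, anti0 halt w, neg_neg]
    rw [h2] at h1
    have h3 : (2 : K) * ω (T v) w = 0 := by linear_combination h1
    exact (mul_eq_zero.1 h3).resolve_left two_ne_zero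
  have hv' : ω v (T v) ≠ 0 := by
    rw [anti0 halt]; exact neg_ne_zero.2 hv
  obtain ⟨a, ha⟩ := IsAlgClosed.exists_pow_nat_eq (ω v (T v))⁻¹ (n := 2) (by norm_num)
  have hskew : ∀ x v w, ω (trv ω x v) w = - ω v (trv ω x w) := by
    intro x v w
    simp only [trv_apply, map_smul, LinearMap.smul_apply, smul_eq_mul]
    rw [anti0 halt x w]; ring
  refine ⟨a • T v, T - trv ω (a • T v), by abel, ⟨a • v, by rw [map_smul]⟩, ?_, ?_⟩
  · intro v' w
    change ω (T v' - trv ω (a • T v) v') w = - ω v' (T w - trv ω (a • T v) w)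
    rw [map_sub, LinearMap.sub_apply, map_sub, hT, hskew]; ring
  · have hker : LinearMap.ker T < LinearMap.ker (T - trv ω (a • T v)) := by
      refine lt_of_le_of_ne ?_ ?_
      · intro u hu
        rw [LinearMap.mem_ker] at hu ⊢
        change T u - trv ω (a • T v) u = 0
        have h1 : ω u (T v) = 0 := by
          have := hT u v
          rw [hu] at this
          simp only [map_zero, LinearMap.zero_apply] at this
          linear_combination this
        rw [hu, trv_apply, map_smul, h1]; simp
      · intro heq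
        have h1 : v ∈ LinearMap.ker (T - trv ω (a • T v)) := by
          rw [LinearMap.mem_ker]
          change T v - trv ω (a • T v) v = 0
          rw [trv_apply, map_smul, smul_smul, smul_eq_mul]
          have h2 : a * ω v (T v) * a = 1 := by
            have : a * ω v (T v) * a = a ^ 2 * ω v (T v) := by ring
            rw [this, ha, inv_mul_cancel₀ hv']
          rw [h2, one_smul, sub_self]
        rw [← heq, LinearMap.mem_ker] at h1
        apply hv
        rw [h1]; simp
    have h1 := Submodule.finrank_lt_finrank_of_lt hker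
    have h2 := LinearMap.finrank_range_add_finrank_ker T
    have h3 := LinearMap.finrank_range_add_finrank_ker (T - trv ω (a • T v))
    omega

theorem zero_of_rank [FiniteDimensional K V] {T : Module.End K V}
    (h : finrank K (LinearMap.range T) = 0) : T = 0 := by
  rw [Submodule.finrank_eq_zero, LinearMap.range_eq_bot] at h
  exact h

/-- A square zero skew operator of rank one or two. -/
theorem rank_two [IsAlgClosed K] [CharZero K] [FiniteDimensional K V] {ω : V →ₗ[K] V →ₗ[K] K}
    (halt : ∀ v, ω v v = 0) (hnd : ∀ u, (∀ w, ω u w = 0) → u = 0) {T : Module.End K V}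
    (hT : ∀ v w, ω (T v) w = - ω v (T w)) (h0 : T ≠ 0)
    (hr : finrank K (LinearMap.range T) ≤ 2) :
    (∃ d, d ∈ LinearMap.range T ∧ T = trv ω d) ∨
    (∃ p q, p ∈ LinearMap.range T ∧ q ∈ LinearMap.range T ∧ (∀ a c : K, a • p + c • q = 0 →
      a = 0 ∧ c = 0) ∧ ∀ v, T v = ω v p • q + ω v q • p) := by
  obtain ⟨x, T1, e1, ⟨x0, hx0⟩, hT1, hr1⟩ := peel halt hnd hT h0
  by_cases h1 : T1 = 0
  · left
    exact ⟨x, ⟨x0, hx0⟩, by rw [e1, h1, add_zero]⟩
  obtain ⟨y, T2, e2, ⟨y0, hy0⟩, -, hr2⟩ := peel halt hnd hT1 h1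
  have hT2 : T2 = 0 := zero_of_rank (by omega)
  rw [hT2, add_zero] at e2
  have eT : ∀ v, T v = ω v x • x + ω v y • y := by
    intro v
    rw [e1, e2]; rfl
  have hxr : x ∈ LinearMap.range T := ⟨x0, hx0⟩
  have hyr : y ∈ LinearMap.range T := by
    refine ⟨y0 - ω y0 x • x0, ?_⟩
    rw [map_sub, map_smul, hx0, ← hy0, e1]
    change ω y0 x • x + T1 y0 - ω y0 x • x = T1 y0
    abel
  obtain ⟨i, hi⟩ := IsAlgClosed.exists_pow_nat_eq (-1 : K) (n := 2) (by norm_num)
  set p : V := (1 / 2 : K) • (x + i • y) with hp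
  set q : V := x - i • y with hq
  have hpr : p ∈ LinearMap.range T :=
    Submodule.smul_mem _ _ (Submodule.add_mem _ hxr (Submodule.smul_mem _ _ hyr))
  have hqr : q ∈ LinearMap.range T :=
    Submodule.sub_mem _ hxr (Submodule.smul_mem _ _ hyr)
  have epq : ∀ v, T v = ω v p • q + ω v q • p := by
    intro v
    rw [eT, hp, hq]
    simp only [map_smul, map_add, map_sub, smul_eq_mul, smul_add, smul_sub, smul_smul]
    have h3 : i * i = -1 := by rw [← hi]; ring
    have h4 : ω v x • x + ω v y • y = ω v x • x + (-(i * i) * ω v y) • y := by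
      rw [h3]; simp
    rw [h4]
    module
  clear_value p q
  have key : ∀ (d : V) (μ : K), d ∈ LinearMap.range T → (∀ v, T v = (μ * ω v d) • d) →
      ∃ d, d ∈ LinearMap.range T ∧ T = trv ω d := by
    intro d μ hd hd2
    obtain ⟨a, ha⟩ := IsAlgClosed.exists_pow_nat_eq μ (n := 2) (by norm_num)
    refine ⟨a • d, Submodule.smul_mem _ _ hd, ?_⟩
    ext v
    rw [hd2, trv_apply, map_smul, smul_smul, smul_eq_mul, ← ha]
    congr 1
    ring
  by_cases hdep : ∀ a c : K, a • p + c • q = 0 → a = 0 ∧ c = 0
  · right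
    exact ⟨p, q, hpr, hqr, hdep, epq⟩
  · left
    push Not at hdep
    obtain ⟨a, c, hac, hne⟩ := hdep
    by_cases hc : c = 0
    · have ha : a ≠ 0 := fun ha => hne ha hc
      have hp0 : p = 0 := by
        rw [hc, zero_smul, add_zero] at hac
        exact (smul_eq_zero.1 hac).resolve_left ha
      apply key p 0 hpr
      intro v
      rw [epq, hp0]; simp
    · have hq0 : q = (-(a / c)) • p := by
        have h5 : c • q = c • ((-(a / c)) • p) := by
          rw [smul_smul]
          have h6 : c * -(a / c) = -a := by field_simp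
          rw [h6, neg_smul]
          rw [add_comm] at hac
          exact eq_neg_of_add_eq_zero_left hac
        exact smul_right_injective V hc h5
      apply key p (2 * (-(a / c))) hpr
      intro v
      rw [epq, hq0, map_smul, smul_eq_mul]
      module

end Pool.Agent.H76RM
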