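import Pool.Agent.Lib.H76RM.Core2

/-!
# The Lie algebra contains all transvections of all components
-/

set_option autoImplicit false
set_option linter.unusedSectionVars false
namespace Pool.Agent.H76RM
open Module Pool.Agent.H53Toric

variable {K : Type*} [Field K] [IsAlgClosed K] [CharZero K] {V : Type*} [AddCommGroup V]
  [Module K V] [FiniteDimensional K V]
variable {B : Type*} [Fintype B] [DecidableEq B] {Γ : Type*} [Group Γ]
variable {ω : V →ₗ[K] V →ₗ[K] K} {e : B → Module.End K V}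
    {g : Submodule K (Module.End K V)} {r : Γ →* Module.End K V}

/-- seed for the component `b`: a square zero element of `g` inducing `trv d` on `V_b` -/
def Seed (ω : V →ₗ[K] V →ₗ[K] K) (e : B → Module.End K V)
    (g : Submodule K (Module.End K V)) (b : B) : Prop :=
  ∃ M ∈ g, M * M = 0 ∧ ∃ d, e b d = d ∧ d ≠ 0 ∧ M * e b = trv ω d

namespace Setup

variable (h : Setup ω e g r)
include h

theorem skew_e {A : Module.End K V} (hA : A ∈ g) (b : B) (v w : V) :
    ω ((A * e b) v) w = - ω v ((A * e b) w) := by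
  change ω (A (e b v)) w = - ω v (A (e b w))
  rw [h.skew A hA, h.self, h.ecomm hA]

theorem range_e {A : Module.End K V} (hA : A ∈ g) {b : B} {v : V}
    (hv : v ∈ LinearMap.range (A * e b)) : e b v = v := by
  obtain ⟨w, rfl⟩ := hv
  change e b (A (e b w)) = A (e b w)
  rw [h.ecomm hA, h.idem']

/-- `M Z M ∈ g` for square zero `M` -/
theorem mid {M Z : Module.End K V} (hM : M ∈ g) (hM2 : M * M = 0) (hZ : Z ∈ g) :
    M * Z * M ∈ g := by
  have h1 := h.dbl hM hZ
  have e1 : M * (M * Z - Z * M) - (M * Z - Z * M) * M = (-2 : K) • (M * Z * M) := by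
    have : M * (M * Z - Z * M) - (M * Z - Z * M) * M =
        (M * M) * Z - (2 : K) • (M * Z * M) + Z * (M * M) := by
      simp only [mul_sub, sub_mul, mul_assoc, two_smul]
      abel
    rw [this, hM2, zero_mul, mul_zero, add_zero, zero_sub, neg_smul]
  rw [e1] at h1
  have h2 := g.smul_mem (-1 / 2 : K) h1
  rw [smul_smul] at h2
  have e2 : (-1 / 2 : K) * (-2) = 1 := by norm_num
  rwa [e2, one_smul] at h2

theorem mid_e {M Z : Module.End K V} (hM : M ∈ g) (hZ : Z ∈ g) (b : B) (v : V) :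
    (M * Z * M * e b) v = (M * e b) (Z ((M * e b) v)) := by
  change M (Z (M (e b v))) = M (e b (Z (M (e b v))))
  rw [h.ecomm hZ, h.ecomm hM, h.idem']

theorem seed_of_small {b : B} {N : Module.End K V} (hN : N ∈ g) (hN2 : N * N = 0)
    (h0 : N * e b ≠ 0) (hr : finrank K (LinearMap.range (N * e b)) ≤ 2) :
    Seed ω e g b := by
  rcases rank_two h.alt (h.nd) (h.skew_e hN b) h0 hr with
    ⟨d, hd, hT⟩ | ⟨p, q, hp, hq, hpq, hT⟩
  · refine ⟨N, hN, hN2, d, h.range_e hN hd, ?_, hT⟩
    rintro rfl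
    apply h0
    rw [hT]
    ext v
    rw [trv_apply, smul_zero]; rfl
  have hpb := h.range_e hN hp
  have hqb := h.range_e hN hq
  have hp0 : p ≠ 0 := by
    rintro rfl
    have := hpq 1 0 (by simp)
    exact one_ne_zero this.1
  have hq0 : q ≠ 0 := by
    rintro rfl
    have := hpq 0 1 (by simp)
    exact one_ne_zero this.2
  by_cases hall : ∀ Z ∈ g, ω (Z p) p = 0
  · -- impossible
    exfalso
    obtain ⟨x, hx1, hx2, -⟩ := h.gen p p p q p p (h.ex hpb hpb hp0 hp0) (h.ex hpb hqb hp0 hq0)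
      (h.ex hpb hpb hp0 hp0)
    obtain ⟨c, hc, hsim⟩ := h.sim x
    have h1 := hall _ (h.conj x N hN)
    have h2 : N (r x⁻¹ p) = ω (r x⁻¹ p) p • q + ω (r x⁻¹ p) q • p := by
      rw [← hT]
      change _ = N (e b (r x⁻¹ p))
      rw [h.fixr _ hpb]
    have h3 : (r x * N * r x⁻¹) p = ω (r x⁻¹ p) p • r x q + ω (r x⁻¹ p) q • r x p := by
      change r x (N (r x⁻¹ p)) = _
      rw [h2, map_add, map_smul, map_smul]
    have h4 : ∀ w, ω (r x⁻¹ p) w = c⁻¹ * ω p (r x w) := by
      intro w
      have := hsim (r x⁻¹ p) w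
      rw [h.rr] at this
      rw [this]; field_simp
    rw [h3, h4, h4] at h1
    simp only [map_add, map_smul, LinearMap.add_apply, LinearMap.smul_apply, smul_eq_mul] at h1
    rw [h.anti (r x q) p, h.anti (r x p) p] at h1
    have h5 : (2 * c⁻¹) * (ω p (r x p) * ω p (r x q)) = 0 := by linear_combination -h1
    rcases mul_eq_zero.1 h5 with h6 | h6
    · rcases mul_eq_zero.1 h6 with h7 | h7
      · exact two_ne_zero h7
      · exact hc (inv_eq_zero.1 h7)
    · rcases mul_eq_zero.1 h6 with h7 | h7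
      · exact hx1 h7
      · exact hx2 h7
  push Not at hall
  obtain ⟨Z, hZ, hZp⟩ := hall
  obtain ⟨a, ha⟩ := IsAlgClosed.exists_pow_nat_eq (ω (Z q) q) (n := 2) (by norm_num)
  obtain ⟨c, hc⟩ := IsAlgClosed.exists_pow_nat_eq (ω (Z p) p) (n := 2) (by norm_num)
  have hc0 : c ≠ 0 := by
    rintro rfl
    apply hZp
    rw [← hc]; norm_num
  refine ⟨N * Z * N + (a * c - ω (Z p) q) • N, g.add_mem (h.mid hN hN2 hZ) (g.smul_mem _ hN), ?_,
    a • p + c • q, by rw [map_add, map_smul, map_smul, hpb, hqb], fun h0 => hc0 (hpq a c h0).2, ?_⟩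
  · simp only [add_mul, mul_add, smul_mul_assoc, mul_smul_comm]
    have e1 : N * Z * N * (N * Z * N) = 0 := by
      rw [← mul_assoc, ← mul_assoc, mul_assoc (N * Z) N N, hN2]; simp
    have e2 : N * Z * N * N = 0 := by rw [mul_assoc, hN2, mul_zero]
    have e3 : N * (N * Z * N) = 0 := by rw [← mul_assoc, ← mul_assoc, hN2]; simp
    rw [e1, e2, e3, hN2]; simp
  · ext v
    rw [add_mul, smul_mul_assoc]
    change (N * Z * N * e b) v + (a * c - ω (Z p) q) • (N * e b) v = trv ω (a • p + c • q) v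
    rw [h.mid_e hN hZ, hT, hT, trv_apply]
    have e1 : ω (Z q) p = ω (Z p) q := by rw [h.skew Z hZ, h.anti q, neg_neg]
    simp only [map_add, map_smul, LinearMap.add_apply, LinearMap.smul_apply, smul_eq_mul]
    rw [e1, ← ha, ← hc]
    module

end Setup

end Pool.Agent.H76RM
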