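import Pool.Agent.Lib.H76RM.Alg

/-!
# From the Lie algebra to the group, with endomorphisms
-/

set_option autoImplicit false
set_option linter.unusedSectionVars false
namespace Pool.Agent.H76RM
open Module Matrix Pool.Agent.H53Toric

variable {ι : Type*} [Fintype ι] [DecidableEq ι] {K : Type*} [Field K]
variable {B : Type*} [Fintype B] [DecidableEq B]

/-- self adjoint primitive idempotents, one for each simple factor -/
structure Split (J : Matrix ι ι K) (DD : Submodule K (Matrix ι ι K)) (e : B → Matrix ι ι K) :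
    Prop where
  one : (1 : Matrix ι ι K) ∈ DD
  mem : ∀ b, e b ∈ DD
  idem : ∀ b, e b * e b = e b
  adj : ∀ b, (e b)ᵀ * J = J * e b
  corner : ∀ b, ∀ x ∈ DD, ∃ c : K, e b * x * e b = c • e b
  orth : ∀ b c, b ≠ c → ∀ x ∈ DD, e b * x * e c = 0
  full : ∀ v : ι → K, v ∈ Submodule.span K {w | ∃ x ∈ DD, ∃ b, ∃ u : ι → K,
    w = x *ᵥ (e b *ᵥ u)}

namespace Split

variable {J : Matrix ι ι K} {DD : Submodule K (Matrix ι ι K)} {e : B → Matrix ι ι K}
  (h : Split J DD e)
include h

theorem orth1 {b c : B} (hbc : b ≠ c) : e b * e c = 0 := by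
  have := h.orth b c hbc 1 h.one
  rwa [mul_one] at this

theorem ext_comm {x y : Matrix ι ι K} (hx : ∀ d ∈ DD, x * d = d * x)
    (hy : ∀ d ∈ DD, y * d = d * y) (hxy : ∀ b, x * e b = y * e b) : x = y := by
  have key : ∀ v : ι → K, x *ᵥ v = y *ᵥ v := by
    intro v
    refine Submodule.span_induction (p := fun v _ => x *ᵥ v = y *ᵥ v) ?_ ?_ ?_ ?_ (h.full v)
    · rintro _ ⟨d, hd, b, u, rfl⟩
      rw [Matrix.mulVec_mulVec, Matrix.mulVec_mulVec, Matrix.mulVec_mulVec,
        Matrix.mulVec_mulVec]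
      congr 1
      rw [hx d hd, hy d hd, mul_assoc, mul_assoc, hxy b]
    · rw [Matrix.mulVec_zero, Matrix.mulVec_zero]
    · intro a b _ _ ha hb
      rw [Matrix.mulVec_add, Matrix.mulVec_add, ha, hb]
    · intro a v _ hv
      rw [Matrix.mulVec_smul, Matrix.mulVec_smul, hv]
  apply (phi (ι := ι) (K := K)).injective
  apply LinearMap.ext
  intro v
  rw [phi_apply, phi_apply]
  exact key v

theorem self (b : B) (v w : ι → K) : om J (e b *ᵥ v) w = om J v (e b *ᵥ w) := by
  rw [om_apply, om_apply, Matrix.mulVec_mulVec, ← h.adj b, ← Matrix.mulVec_mulVec,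
    Matrix.dotProduct_mulVec v, Matrix.vecMul_transpose]

end Split

/-- the subspace `V_b` -/
noncomputable def Vb (e : B → Matrix ι ι K) (b : B) : Submodule K (ι → K) :=
  LinearMap.range (phi (e b))

theorem mem_Vb {e : B → Matrix ι ι K} {b : B} (hb : e b * e b = e b) {v : ι → K} :
    v ∈ Vb e b ↔ e b *ᵥ v = v := by
  constructor
  · rintro ⟨u, rfl⟩
    rw [phi_apply, Matrix.mulVec_mulVec, hb]
  · intro hv
    exact ⟨v, by rw [phi_apply, hv]⟩

/-- the restricted form -/
noncomputable def omb (J : Matrix ι ι K) (e : B → Matrix ι ι K) (b : B) :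
    Vb e b →ₗ[K] Vb e b →ₗ[K] K :=
  (om J).compl₁₂ (Vb e b).subtype (Vb e b).subtype

theorem omb_apply (J : Matrix ι ι K) (e : B → Matrix ι ι K) (b : B) (v w : Vb e b) :
    omb J e b v w = om J v.1 w.1 := rfl

section
variable {J : Matrix ι ι K} {DD : Submodule K (Matrix ι ι K)} {e : B → Matrix ι ι K}
  (h : Split J DD e) {S : Set (Matrix ι ι K)} (hS1 : (1 : Matrix ι ι K) ∈ S)
  (hS : ∀ a ∈ S, ∀ b ∈ S, a * b ∈ S) (hSD : ∀ s ∈ S, ∀ d ∈ DD, s * d = d * s)
  (hA : ∀ b w, e b *ᵥ w = w → ∃ A ∈ zlie S, phi A * phi (e b) = trv (om J) w ∧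
    ∀ c, c ≠ b → phi A * phi (e c) = 0)
  (hJ : Jᵀ = -J) (hdet : IsUnit J.det)

include h hS1 hSD hA hJ in
theorem one_add_mem [CharZero K] {b : B} {w : ι → K} (hw : e b *ᵥ w = w) (a : K) :
    ∃ y ∈ zar S, (∀ v, e b *ᵥ v = v → y *ᵥ v = v + a • trv (om J) w v) ∧
      ∀ c, c ≠ b → y * e c = e c := by
  obtain ⟨A, hAz, hAb, hAc⟩ := hA b w hw
  have hcomm : ∀ d ∈ DD, A * d = d * A := fun d hd =>
    zlie_commute hS1 (fun s hs => hSD s hs d hd) hAz
  have hAc' : ∀ c, c ≠ b → A * e c = 0 := by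
    intro c hc
    apply (phi (ι := ι) (K := K)).injective
    rw [map_mul, hAc c hc, map_zero]
  have hAA : A * A = 0 := by
    apply h.ext_comm
    · intro d hd
      rw [mul_assoc, hcomm d hd, ← mul_assoc, hcomm d hd, mul_assoc]
    · intro d _
      rw [zero_mul, mul_zero]
    · intro c
      rw [zero_mul]
      by_cases hc : c = b
      · subst hc
        have e1 : A * A * e c = (A * e c) * (A * e c) := by
          calc A * A * e c = A * A * (e c * e c) := by rw [h.idem]
            _ = A * (A * e c) * e c := by noncomm_ring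
            _ = A * (e c * A) * e c := by rw [hcomm _ (h.mem c)]
            _ = _ := by noncomm_ring
        rw [e1]
        apply (phi (ι := ι) (K := K)).injective
        rw [map_mul, map_mul, hAb, trv_sq (om_alt hJ), map_zero]
      · rw [mul_assoc, hAc' c hc, mul_zero]
  refine ⟨1 + a • A, ?_, ?_, ?_⟩
  · have := zlie_exp hAz hAA 1 hS1 a
    rwa [one_mul] at this
  · intro v hv
    have e1 : A *ᵥ v = trv (om J) w v := by
      rw [← hAb]
      change _ = phi A (phi (e b) v)
      rw [phi_apply (e b), hv, phi_apply]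
    rw [Matrix.add_mulVec, Matrix.one_mulVec, Matrix.smul_mulVec, e1]
  · intro c hc
    rw [add_mul, one_mul, smul_mul_assoc, hAc' c hc, smul_zero, add_zero]

include h hS1 hS hSD hA hJ hdet in
/-- isometries of one component -/
theorem comp_mem [CharZero K] (b : B) (x : Module.End K (Vb e b))
    (hx : ∀ v w, omb J e b (x v) (x w) = omb J e b v w) :
    ∃ y ∈ zar S, (∀ v : Vb e b, y *ᵥ v.1 = (x v).1) ∧ ∀ c, c ≠ b → y * e c = e c := by
  have h1 := sp_mem (ω := omb J e b)
    (Z := {x | ∃ y ∈ zar S, (∀ v : Vb e b, y *ᵥ v.1 = (x v).1) ∧ ∀ c, c ≠ b → y * e c = e c})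
    (by
      intro v
      rw [omb_apply]
      exact om_alt hJ _) (by
      intro v hv
      apply Subtype.ext
      apply om_nd hdet
      intro w
      have hvb := (mem_Vb (h.idem b)).1 v.2
      rw [← hvb, ← h.self]
      have := hv ⟨e b *ᵥ w, (mem_Vb (h.idem b)).2 (by rw [Matrix.mulVec_mulVec, h.idem])⟩
      rw [omb_apply] at this
      exact this)
    ⟨1, subset_zar S hS1, by intro v; rw [Matrix.one_mulVec]; rfl, by intro c _; rw [one_mul]⟩
    (by
      rintro a ⟨ya, hya, h2, h3⟩ c ⟨yc, hyc, h4, h5⟩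
      refine ⟨ya * yc, zar_mul hS hya hyc, ?_, ?_⟩
      · intro v
        rw [← Matrix.mulVec_mulVec, h4, h2]; rfl
      · intro k hk
        rw [mul_assoc, h5 k hk, h3 k hk])
    (by
      intro a d
      obtain ⟨y, hy, h2, h3⟩ := one_add_mem h hS1 hSD hA hJ
        (w := d.1) ((mem_Vb (h.idem b)).1 d.2) a
      refine ⟨y, hy, ?_, h3⟩
      intro v
      rw [h2 v.1 ((mem_Vb (h.idem b)).1 v.2)]
      rw [LinearMap.add_apply, LinearMap.smul_apply, trv_apply, trv_apply, omb_apply]
      rfl)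
    (finrank K (Vb e b)) x hx (Nat.le_add_left _ _)
  exact h1

include h hS1 hS hSD hA hJ hdet in
/-- isometries commuting with `DD` -/
theorem iso_mem [CharZero K] {y : Matrix ι ι K} (hy : yᵀ * J * y = J)
    (hyD : ∀ d ∈ DD, y * d = d * y) : y ∈ zar S := by
  have hfac : ∀ b, ∃ z ∈ zar S, z * e b = y * e b ∧ ∀ c, c ≠ b → z * e c = e c := by
    intro b
    have hmaps : ∀ v ∈ Vb e b, phi y v ∈ Vb e b := by
      intro v hv
      rw [mem_Vb (h.idem b)] at hv ⊢
      rw [phi_apply, Matrix.mulVec_mulVec, ← hyD _ (h.mem b), ← Matrix.mulVec_mulVec, hv]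
    obtain ⟨z, hz, h1, h2⟩ := comp_mem h hS1 hS hSD hA hJ hdet b
      ((phi y).restrict hmaps) (by
        intro v w
        rw [omb_apply, omb_apply, LinearMap.coe_restrict_apply, LinearMap.coe_restrict_apply,
          phi_apply, phi_apply, om_mul, hy])
    refine ⟨z, hz, ?_, h2⟩
    apply (phi (ι := ι) (K := K)).injective
    apply LinearMap.ext
    intro v
    rw [phi_apply, phi_apply, ← Matrix.mulVec_mulVec, ← Matrix.mulVec_mulVec]
    have := h1 ⟨e b *ᵥ v, (mem_Vb (h.idem b)).2 (by rw [Matrix.mulVec_mulVec, h.idem])⟩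
    rw [LinearMap.coe_restrict_apply, phi_apply] at this
    exact this
  have key : ∀ T : Finset B, ∃ z ∈ zar S, (∀ b ∈ T, z * e b = y * e b) ∧
      ∀ c, c ∉ T → z * e c = e c := by
    intro T
    induction T using Finset.induction_on with
    | empty =>
      refine ⟨1, subset_zar S hS1, ?_, ?_⟩
      · intro b hb
        simp at hb
      · intro c _
        rw [one_mul]
    | insert b T hb ih =>
      obtain ⟨z, hz, h1, h2⟩ := ih
      obtain ⟨x, hx, h3, h4⟩ := hfac b
      refine ⟨x * z, zar_mul hS hx hz, ?_, ?_⟩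
      · intro c hc
        rw [Finset.mem_insert] at hc
        rcases hc with rfl | hc
        · rw [mul_assoc, h2 c hb, h3]
        · have hcb : c ≠ b := by
            rintro rfl
            exact hb hc
          rw [mul_assoc, h1 c hc]
          calc x * (y * e c) = x * (y * (e c * e c)) := by rw [h.idem]
            _ = x * ((y * e c) * e c) := by noncomm_ring
            _ = x * ((e c * y) * e c) := by rw [hyD _ (h.mem c)]
            _ = (x * e c) * (y * e c) := by noncomm_ring
            _ = e c * y * e c := by rw [h4 c hcb]; noncomm_ring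
            _ = y * e c * e c := by rw [hyD _ (h.mem c)]
            _ = _ := by rw [mul_assoc, h.idem]
      · intro c hc
        rw [Finset.mem_insert, not_or] at hc
        rw [mul_assoc, h2 c hc.2, h4 c hc.1]
  obtain ⟨z, hz, h1, -⟩ := key Finset.univ
  have hzy : z = y := by
    apply h.ext_comm
    · intro d hd
      exact zar_commute (fun s hs => hSD s hs d hd) hz
    · exact hyD
    · intro b
      exact h1 b (Finset.mem_univ b)
  rw [← hzy]
  exact hz

include h hS1 hS hSD hA hJ hdet in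
/-- similitudes commuting with `DD` -/
theorem sim_mem [IsAlgClosed K] [CharZero K] (hne : J ≠ 0)
    {s s' : Matrix ι ι K} (hs : s ∈ S) (hs' : s' ∈ S) (hss : s * s' = 1) {c₀ : K}
    (hc₀ : sᵀ * J * s = c₀ • J) (hroot : ∀ n : ℕ, n ≠ 0 → c₀ ^ n ≠ 1)
    {x : Matrix ι ι K} (hx : IsUnit x.det) (hxD : ∀ d ∈ DD, x * d = d * x)
    {c : K} (hc : xᵀ * J * x = c • J) : x ∈ zar S := by
  have hiso : ∀ y : Matrix ι ι K, yᵀ * J * y = J → (∀ d ∈ DD, y * d = d * y) → y ∈ zar S :=
    fun y hy hyD => iso_mem h hS1 hS hSD hA hJ hdet hy hyD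
  have hJ0 : J ≠ 0 := hne
  have hc00 : c₀ ≠ 0 := by
    rintro rfl
    rw [zero_smul] at hc₀
    have hss' : s'ᵀ * sᵀ = 1 := by rw [← Matrix.transpose_mul, hss, Matrix.transpose_one]
    apply hJ0
    calc J = (s'ᵀ * sᵀ) * J * (s * s') := by rw [hss', hss, one_mul, mul_one]
      _ = s'ᵀ * (sᵀ * J * s) * s' := by noncomm_ring
      _ = 0 := by rw [hc₀]; simp
  -- infinitely many scalars
  have hpow : ∀ n : ℕ, s ^ n ∈ S ∧ s' ^ n ∈ S ∧ s ^ n * s' ^ n = 1 ∧
      (s ^ n)ᵀ * J * s ^ n = c₀ ^ n • J := by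
    intro n
    induction n with
    | zero => exact ⟨by simpa using hS1, by simpa using hS1, by simp, by simp⟩
    | succ n ih =>
      obtain ⟨h1, h2, h3, h4⟩ := ih
      refine ⟨?_, ?_, ?_, ?_⟩
      · rw [pow_succ]; exact hS _ h1 _ hs
      · rw [pow_succ']; exact hS _ hs' _ h2
      · calc s ^ (n + 1) * s' ^ (n + 1) = s ^ n * (s * s') * s' ^ n := by
              rw [pow_succ s n, pow_succ' s' n]; noncomm_ring
          _ = 1 := by rw [hss, mul_one, h3]
      · rw [pow_succ, Matrix.transpose_mul]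
        calc sᵀ * (s ^ n)ᵀ * J * (s ^ n * s) = sᵀ * ((s ^ n)ᵀ * J * s ^ n) * s := by
              noncomm_ring
          _ = c₀ ^ n • (sᵀ * J * s) := by rw [h4, mul_smul_comm, smul_mul_assoc]
          _ = _ := by rw [hc₀, smul_smul, pow_succ]
  have hroots : ∀ n : ℕ, ∃ a : K, a * a = (c₀ ^ n)⁻¹ := by
    intro n
    obtain ⟨a, ha⟩ := IsAlgClosed.exists_pow_nat_eq (c₀ ^ n)⁻¹ (n := 2) (by norm_num)
    exact ⟨a, by rw [← ha, pow_two]⟩
  choose a ha using hroots
  have hainj : Function.Injective a := by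
    have key : ∀ m n : ℕ, m < n → a m ≠ a n := by
      intro m n hmn h
      have h1 : (c₀ ^ m)⁻¹ = (c₀ ^ n)⁻¹ := by rw [← ha, ← ha, h]
      have h2 : c₀ ^ m = c₀ ^ n := inv_injective h1
      obtain ⟨k, rfl⟩ := Nat.exists_eq_add_of_lt hmn
      have h3 : c₀ ^ (k + 1) = 1 := by
        have h4 : c₀ ^ m * c₀ ^ (k + 1) = c₀ ^ m * 1 := by
          rw [mul_one, ← pow_add, h2]
          congr 1
        exact mul_left_cancel₀ (pow_ne_zero m hc00) h4
      exact hroot _ (Nat.succ_ne_zero k) h3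
    intro m n h
    by_contra hne
    rcases lt_or_gt_of_ne hne with h1 | h1
    · exact key m n h1 h
    · exact key n m h1 h.symm
  have hmem : ∀ n : ℕ, a n • (1 : Matrix ι ι K) ∈ zar S := by
    intro n
    obtain ⟨h1, h2, h3, h4⟩ := hpow n
    have h5 : a n • s ^ n ∈ zar S := by
      apply hiso
      · rw [Matrix.transpose_smul]
        simp only [smul_mul_assoc, mul_smul_comm, h4, smul_smul]
        have h6 : a n * (a n * c₀ ^ n) = 1 := by
          rw [← mul_assoc, ha, inv_mul_cancel₀ (pow_ne_zero n hc00)]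
        rw [h6, one_smul]
      · intro d hd
        rw [smul_mul_assoc, mul_smul_comm, hSD _ h1 d hd]
    have h7 := zar_mul hS h5 (subset_zar S h2)
    rwa [smul_mul_assoc, h3] at h7
  have hscal : ∀ t : K, t • (1 : Matrix ι ι K) ∈ zar S := by
    intro t
    have := line_subset_zar (S := S) (x := 0) (y := 1) (T := Set.range a)
      (Set.infinite_range_of_injective hainj) (by
        rintro _ ⟨n, rfl⟩
        rw [zero_add]
        exact hmem n) t
    rwa [zero_add] at this
  have hc0 : c ≠ 0 := by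
    rintro rfl
    rw [zero_smul] at hc
    have h3 := congrArg Matrix.det hc
    rw [Matrix.det_mul, Matrix.det_mul, Matrix.det_transpose] at h3
    have hne : Nonempty ι := by
      by_contra hemp
      rw [not_nonempty_iff] at hemp
      apply hJ0
      ext i
      exact (hemp.false i).elim
    rw [Matrix.det_zero] at h3
    exact (mul_ne_zero (mul_ne_zero hx.ne_zero hdet.ne_zero) hx.ne_zero) h3
  obtain ⟨b, hb⟩ := IsAlgClosed.exists_pow_nat_eq c⁻¹ (n := 2) (by norm_num)
  have hb0 : b ≠ 0 := by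
    rintro rfl
    rw [zero_pow (by norm_num)] at hb
    exact inv_ne_zero hc0 hb.symm
  have h8 : b • x ∈ zar S := by
    apply hiso
    · rw [Matrix.transpose_smul]
      simp only [smul_mul_assoc, mul_smul_comm, hc, smul_smul]
      have h6 : b * (b * c) = 1 := by
        rw [← mul_assoc, ← pow_two, hb, inv_mul_cancel₀ hc0]
      rw [h6, one_smul]
    · intro d hd
      rw [smul_mul_assoc, mul_smul_comm, hxD d hd]
  have h9 := zar_mul hS h8 (hscal b⁻¹)
  rwa [smul_mul_smul_comm, mul_inv_cancel₀ hb0, mul_one, one_smul] at h9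

end

end Pool.Agent.H76RM
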